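import Pool.Agent.Run7.h365.KF.Bt
import Pool.Agent.Run7.h365.PF.Po

/-!
# The order of the pole for products of Fermat varieties over a number field
-/

set_option autoImplicit false
set_option linter.unusedSectionVars false

namespace Run7.h365.KF

open Finset NumberField IsDedekindDomain Filter Polynomial Run7.h365.FV Run7.h365.PF
open Pool.Agent.W353.EF (cone IsFrobenius IsEulerSystem)
open Pool.Agent.N172.HS (IsHecke)
open Pool.Agent.Y149.Ord (HasOrder)
open Pool.Agent.Y772.NZ (one one_ne)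
open Run7.h365.CM (IsTriv norm_v_pos)
open Run7.h365.CM.T (isHecke_one eventually_coprime triv_of_ae)

variable {K : Type} [Field K] [NumberField K] {r : ℕ} {nn mm : Fin r → ℕ} {L : ℕ}
  {v : HeightOneSpectrum (𝓞 K)}

/-! ### the number of the primes -/

theorem card_aboveK {M : ℕ} [NeZero M] (hv : (Ideal.absNorm v.asIdeal).Coprime M) :
    Fintype.card {w : HeightOneSpectrum (𝓞 (EE K M)) // und K w = v} * foK v M =
      Fintype.card Gal(EE K M/K) := by
  classical
  obtain ⟨w₀, hw₀⟩ := exists_aboveK v M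
  obtain ⟨κ, _, _, _, φ, hφ, hker, hcard⟩ := exists_model w₀
  obtain ⟨p, hp⟩ := CharP.exists κ
  have : Fact p.Prime := ⟨CharP.char_is_prime κ p⟩
  have hkp : kp p φ = w₀ := HeightOneSpectrum.ext hker
  have h3 : ∀ w : HeightOneSpectrum (𝓞 (EE K M)),
      w ∈ (univ : Finset {w : HeightOneSpectrum (𝓞 (EE K M)) // und K w = v}).map
        (Function.Embedding.subtype _) ↔ und K w = v := by
    intro w
    rw [Finset.mem_map]
    constructor
    · rintro ⟨⟨w', hw'⟩, _, rfl⟩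
      exact hw'
    · intro h
      exact ⟨⟨w, h⟩, mem_univ _, rfl⟩
  rw [← card_univ (α := Gal(EE K M/K)), card_eq_sum_card_fiberwise (s := univ)
    (t := (univ : Finset {w : HeightOneSpectrum (𝓞 (EE K M)) // und K w = v}).map
        (Function.Embedding.subtype _))
    (f := fun σ : Gal(EE K M/K) => kp p (φ.comp (actK σ)))
    (fun σ _ => (h3 _).2 (by rw [und_kp, hkp, hw₀]))]
  rw [sum_congr rfl (fun w hw => card_fibK φ hv (by rw [hkp, hw₀]) ((h3 w).1 hw)), sum_const,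
    smul_eq_mul, card_map, card_univ]

theorem exists_euler_ofK {n : ℕ} {eqs : Set (MvPolynomial (Fin n) (𝓞 K))} {d k N : ℕ}
    (h : ∀ᶠ v : HeightOneSpectrum (𝓞 K) in cofinite, ∃ α : Fin N → ℂ,
      IsFrobenius (K := K) (F := K) eqs d k v α) :
    ∃ B : HeightOneSpectrum (𝓞 K) → ℂ[X], IsEulerSystem (K := K) (F := K) eqs d k N B := by
  classical
  let good : HeightOneSpectrum (𝓞 K) → Prop := fun v =>
    ∃ α : Fin N → ℂ, IsFrobenius (K := K) (F := K) eqs d k v α
  let B : HeightOneSpectrum (𝓞 K) → ℂ[X] := fun v =>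
    if hv : good v then ∏ j, (1 - C (hv.choose j) * X) else 1
  have hBg : ∀ v (hv : good v) z, (B v).eval z = ∏ j, (1 - hv.choose j * z) := by
    intro v hv z
    simp only [B, dif_pos hv, eval_prod]
    refine Finset.prod_congr rfl fun j _ => ?_
    simp
  refine ⟨B, ?_, ?_⟩
  · filter_upwards [h] with v hv
    exact ⟨Exists.choose hv, Exists.choose_spec hv, fun z => hBg v hv z⟩
  · intro v
    by_cases hg : good v
    · rw [hBg v hg]
      refine Finset.prod_ne_zero_iff.2 fun j _ h0 => ?_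
      obtain ⟨β, hβ1, hβ2, -⟩ := hg.choose_spec
      have h2 : hg.choose j ∈ β k := by
        rw [hβ1]
        exact Multiset.mem_map_of_mem _ (Finset.mem_univ j)
      have h3 := hβ2 k _ h2
      have hq : (2 : ℝ) ≤ Ideal.absNorm v.asIdeal := by exact_mod_cast norm_v_pos v
      have hq0 : (0 : ℝ) < Ideal.absNorm v.asIdeal := by linarith
      have h4 : ‖hg.choose j * (Ideal.absNorm v.asIdeal : ℂ) ^ (-((k : ℂ) / 2 + 1))‖ = 1 := by
        rw [← sub_eq_zero.1 h0, norm_one]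
      rw [norm_mul, h3, Complex.norm_natCast_cpow_of_pos (by exact_mod_cast hq0),
        ← Real.rpow_add hq0] at h4
      have h5 : (k : ℝ) / 2 + (-((k : ℂ) / 2 + 1)).re = -1 := by
        have h6 : (-((k : ℂ) / 2 + 1)).re = -((k : ℝ) / 2 + 1) := by
          rw [Complex.neg_re, Complex.add_re, Complex.one_re]
          congr 2
          have h7 : ((k : ℂ) / 2) = ((k / 2 : ℝ) : ℂ) := by push_cast; rfl
          rw [h7, Complex.ofReal_re]
        rw [h6]
        ring
      rw [h5, Real.rpow_neg_one] at h4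
      have h6 : (Ideal.absNorm v.asIdeal : ℝ) = 1 := by
        rw [← inv_inv ((Ideal.absNorm v.asIdeal : ℝ)), h4, inv_one]
      linarith
    · simp only [B, dif_neg hg, eval_one]
      exact one_ne_zero

theorem cpow_wK {M : ℕ} [NeZero M] (hv : (Ideal.absNorm v.asIdeal).Coprime M)
    {w : HeightOneSpectrum (𝓞 (EE K M))} (hw : und K w = v) (s : ℂ) (k : ℕ) :
    (Ideal.absNorm w.asIdeal : ℂ) ^ (((2 * k : ℕ) : ℂ) / 2 - s) =
      (Ideal.absNorm w.asIdeal : ℂ) ^ k * ((Ideal.absNorm v.asIdeal : ℂ) ^ (-s)) ^ foK v M := by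
  have h0 : (Ideal.absNorm w.asIdeal : ℂ) ≠ 0 := by
    exact_mod_cast absNorm_ne w
  have h1 : ((2 * k : ℕ) : ℂ) / 2 - s = (k : ℂ) + -s := by
    push_cast
    ring
  rw [h1, Complex.cpow_add _ _ h0, Complex.cpow_natCast]
  congr 1
  rw [absNorm_wK hv hw, Nat.cast_pow, ← Complex.natCast_cpow_natCast_mul, ← Complex.cpow_nat_mul]

theorem none_factorK {n : ℕ} (hn : Odd n) (s : ℂ) :
    ∏ w : {w : HeightOneSpectrum (𝓞 (EE K 1)) // und K w = v},
      (1 - one (EE K 1) w.1.asIdeal *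
        (Ideal.absNorm w.1.asIdeal : ℂ) ^ (((n - 1 : ℕ) : ℂ) / 2 - s)) =
      1 - (Ideal.absNorm v.asIdeal : ℂ) ^ ((n - 1) / 2) * (Ideal.absNorm v.asIdeal : ℂ) ^ (-s) := by
  obtain ⟨k, hk⟩ := hn
  have h1 : n - 1 = 2 * k := by omega
  have hv : (Ideal.absNorm v.asIdeal).Coprime 1 := Nat.coprime_one_right _
  have h2 := card_aboveK (M := 1) hv
  have hone : Fintype.card Gal(EE K 1/K) = 1 := by
    refine le_antisymm ?_ Fintype.card_pos
    have h3 := Fintype.card_le_of_injective _ (cuK_inj (K := K) (M := 1))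
    have h4 : Fintype.card (ZMod 1)ˣ = 1 := by rw [ZMod.card_units_eq_totient, Nat.totient_one]
    rwa [h4] at h3
  rw [hone] at h2
  have h3 : Fintype.card {w : HeightOneSpectrum (𝓞 (EE K 1)) // und K w = v} = 1 :=
    Nat.eq_one_of_mul_eq_one_right h2
  have h4 : foK v 1 = 1 := Nat.eq_one_of_mul_eq_one_left h2
  have h5 : ∀ w : {w : HeightOneSpectrum (𝓞 (EE K 1)) // und K w = v},
      (1 - one (EE K 1) w.1.asIdeal *
        (Ideal.absNorm w.1.asIdeal : ℂ) ^ (((n - 1 : ℕ) : ℂ) / 2 - s)) =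
      1 - (Ideal.absNorm v.asIdeal : ℂ) ^ ((n - 1) / 2) * (Ideal.absNorm v.asIdeal : ℂ) ^ (-s) := by
    intro w
    have h6 : (n - 1) / 2 = k := by omega
    rw [h1, cpow_wK hv w.2, one_ne _ (by rw [Ideal.zero_eq_bot]; exact w.1.ne_bot),
      absNorm_wK hv w.2, h4, pow_one, pow_one, one_mul, Nat.mul_div_cancel_left _ (by norm_num)]
  rw [prod_congr rfl fun w _ => h5 w, prod_const, card_univ, h3, pow_one]

/-! ### the number of the eigenvalues -/

open Classical in
/-- the number of the eigenvalues -/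
noncomputable def nevK (K : Type) [Field K] [NumberField K] (nn mm : Fin r → ℕ) (L : ℕ) (A : Finset (Fin r)) : ℕ :=
  if hA : A.Nonempty then
    ∑ M : D L, ∑ ω : OrbK K (nA nn A) M.1, if (fam nn mm hA).P (repK ω).1 then Fintype.card Gal(EE K M.1/K) else 0
  else 1

theorem card_evK (hv : (Ideal.absNorm v.asIdeal).Coprime L) (A : Finset (Fin r)) :
    Multiset.card (evK nn mm L v A) = nevK K nn mm L A := by
  classical
  unfold evK nevK
  by_cases hA : A.Nonempty
  · rw [dif_pos hA, dif_pos hA, card_msum]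
    refine sum_congr rfl fun M _ => ?_
    rw [card_msum]
    refine sum_congr rfl fun ω _ => ?_
    by_cases hP : (fam nn mm hA).P (repK ω).1
    · rw [if_pos hP, if_pos hP, card_msum,
        sum_congr rfl (g := fun _ => foK v M.1) (fun w _ => card_rts), sum_const, card_univ,
        smul_eq_mul]
      exact card_aboveK (coprime_levelK hv M)
    · rw [if_neg hP, if_neg hP]
      rfl
  · rw [dif_neg hA, dif_neg hA]
    rfl

/-- the Betti numbers -/
noncomputable def nbtK (K : Type) [Field K] [NumberField K] (nn mm : Fin r → ℕ) (L k : ℕ) : ℕ :=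
  ∑ c ∈ univ.filter (fun c : Sy nn => dg c = k), nevK K nn mm L (pr c)

theorem card_btK (hv : (Ideal.absNorm v.asIdeal).Coprime L) (k : ℕ) :
    Multiset.card (btK nn mm L v k) = nbtK K nn mm L k := by
  unfold btK nbtK
  rw [card_msum]
  refine sum_congr rfl fun c _ => ?_
  rw [Multiset.card_map, card_evK hv]

section euler

variable (h1 : ∀ i, 1 ≤ nn i) (hL : 0 < L) (hm : ∀ i, 0 < mm i) (hmL : ∀ i, mm i ∣ L) {n : ℕ}
  {eqs : Set (MvPolynomial (Fin n) (𝓞 K))} (hX : IsProdK nn mm eqs)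

include h1 hL hm hmL hX

theorem exists_euler_prodK (k : ℕ) : ∃ B : HeightOneSpectrum (𝓞 K) → ℂ[X],
    IsEulerSystem (K := K) (F := K) eqs (∑ i, (nn i - 1)) k (nbtK K nn mm L k) B := by
  apply exists_euler_ofK
  filter_upwards [isFrobenius_prodK h1 hL hm hmL hX, eventually_copK hL] with v hF hv
  obtain ⟨α, hα⟩ := exists_enum (btK nn mm L v k) (card_btK hv k)
  exact ⟨α, hF k hα⟩

theorem euler_eval_prodK {k : ℕ} (hk : k ≤ 2 * ∑ i, (nn i - 1)) {N : ℕ}
    {B : HeightOneSpectrum (𝓞 K) → ℂ[X]}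
    (hB : IsEulerSystem (K := K) (F := K) eqs (∑ i, (nn i - 1)) k N B) :
    ∀ᶠ v : HeightOneSpectrum (𝓞 K) in cofinite, ∀ z : ℂ, (B v).eval z =
      ((btK nn mm L v k).map fun x => 1 - x * z).prod := by
  filter_upwards [hB.1, isFrobenius_prodK h1 hL hm hmL hX, eventually_copK hL] with v h2 hF hv z
  obtain ⟨α, hα, hBv⟩ := h2
  obtain ⟨α', hα'⟩ := exists_enum (btK nn mm L v k) (card_btK hv k)
  have h4 := Pool.Agent.W353.PV.Eig.unique' (K := K) (F := K) (X := eqs) hk hα (hF k hα')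
  rw [hBv, hα', ← h4, Multiset.map_map]
  rfl

end euler

/-! ### the order -/

/-- the orbits -/
abbrev O1K (K : Type) [Field K] [NumberField K] (nn mm : Fin r → ℕ) {k : ℕ} (c : S1 nn k) (M : ℕ) [NeZero M] : Type :=
  {ω : OrbK K (nA nn (pr c.1)) M // (fam nn mm c.2.2).P (repK ω).1}

noncomputable instance {k M : ℕ} [NeZero M] (c : S1 nn k) : Fintype (O1K K nn mm c M) :=
  Fintype.ofFinite _

/-- the index set of the factors -/
abbrev JIK (K : Type) [Field K] [NumberField K] (nn mm : Fin r → ℕ) (L k : ℕ) : Type :=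
  (Σ c : S1 nn k, Σ M : D L, O1K K nn mm c M.1) ⊕ S0 nn k

/-- the level of a factor -/
def lvK {k : ℕ} : JIK K nn mm L k → ℕ
  | Sum.inl x => x.2.1.1
  | Sum.inr _ => 1

instance {k : ℕ} (x : JIK K nn mm L k) : NeZero (lvK x) :=
  match x with
  | Sum.inl x => inferInstanceAs (NeZero x.2.1.1)
  | Sum.inr _ => ⟨one_ne_zero⟩

/-- the Hecke character of a factor -/
noncomputable def psiIK {k : ℕ} (x : JIK K nn mm L k) : Ideal (𝓞 (EE K (lvK x))) →*₀ ℂ :=
  match x with
  | Sum.inl x => psi x.2.1.1 (ffK K x.2.1.1) (repK x.2.2.1).1 ((nA nn (pr x.1.1) + 1) / 2)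
  | Sum.inr _ => one (EE K 1)

theorem exists_hecke_prodK (h2 : ∀ i, 2 ≤ nn i) {j : ℕ} (x : JIK K nn mm L (2 * j)) :
    ∃ (𝔣 : Ideal (𝓞 (EE K (lvK x)))) (k : (EE K (lvK x) →+* ℂ) → ℤ) (t : (EE K (lvK x) →+* ℂ) → ℝ),
      IsHecke 𝔣 k t (psiIK x) := by
  cases x with
  | inr x => exact ⟨_, _, _, isHecke_one (EE K 1)⟩
  | inl x =>
    obtain ⟨hn, hn2, -, hn4⟩ := nA_facts h2 x.1.2.1 x.1.2.2
    refine isHecke_psiK (n := nA nn (pr x.1.1)) hn2 hn (ffK K x.2.1.1)
      (b := (repK x.2.2.1).1) (k := (nA nn (pr x.1.1) + 1) / 2) ?_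
    rw [cnt_good (repK x.2.2.1).2.1]
    exact hn4

theorem some_factorK {n M k j t : ℕ} [NeZero M] (hn : Odd n)
    (hv : (Ideal.absNorm v.asIdeal).Coprime M) (hk : (n + 1) / 2 + t = j + k)
    {w : HeightOneSpectrum (𝓞 (EE K M))} (hw : und K w = v) (b : Fin n → ZMod M) (s : ℂ) :
    psi M (ffK K M) b ((n + 1) / 2) w.asIdeal *
      (Ideal.absNorm w.asIdeal : ℂ) ^ (((2 * j : ℕ) : ℂ) / 2 - s) =
      JnK k b w * ((Ideal.absNorm v.asIdeal : ℂ) ^ t *
        (Ideal.absNorm v.asIdeal : ℂ) ^ (-s)) ^ foK v M := by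
  have h0 : (Ideal.absNorm w.asIdeal : ℂ) ≠ 0 := by
    exact_mod_cast absNorm_ne w
  have h1 : ((Ideal.absNorm v.asIdeal : ℂ) ^ t) ^ foK v M = (Ideal.absNorm w.asIdeal : ℂ) ^ t := by
    rw [absNorm_wK hv hw]
    push_cast
    rw [← pow_mul, ← pow_mul, mul_comm]
  rw [cpow_wK hv hw, psi_applyF, PI_prime b w (notMem_w hv hw), mul_pow, h1]
  unfold JnK
  rw [sg_odd hn, one_mul]
  have h2 : (Ideal.absNorm w.asIdeal : ℂ) ^ ((n + 1) / 2) * (Ideal.absNorm w.asIdeal : ℂ) ^ t =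
      (Ideal.absNorm w.asIdeal : ℂ) ^ j * (Ideal.absNorm w.asIdeal : ℂ) ^ k := by
    rw [← pow_add, ← pow_add, hk]
  have h3 : (Ideal.absNorm w.asIdeal : ℂ) ^ ((n + 1) / 2) ≠ 0 := pow_ne_zero _ h0
  have h4 : (Ideal.absNorm w.asIdeal : ℂ) ^ k ≠ 0 := pow_ne_zero _ h0
  have h5 : ((Ideal.absNorm w.asIdeal : ℂ) ^ ((n + 1) / 2))⁻¹ * (Ideal.absNorm w.asIdeal : ℂ) ^ j =
      (Ideal.absNorm w.asIdeal : ℂ) ^ t / (Ideal.absNorm w.asIdeal : ℂ) ^ k := by
    rw [inv_mul_eq_div, div_eq_div_iff h3 h4]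
    linear_combination -h2
  linear_combination (ffK K M (Pv M n w b : 𝓞 (EE K M)) *
    ((Ideal.absNorm v.asIdeal : ℂ) ^ (-s)) ^ foK v M) * h5

/-- the Euler factor -/
theorem factor_prodK (h2 : ∀ i, 2 ≤ nn i) (hv : (Ideal.absNorm v.asIdeal).Coprime L) {j : ℕ}
    (s : ℂ) :
    ((btK nn mm L v (2 * j)).map fun x => 1 - x * (Ideal.absNorm v.asIdeal : ℂ) ^ (-s)).prod =
      ∏ x : JIK K nn mm L (2 * j), ∏ w : {w : HeightOneSpectrum (𝓞 (EE K (lvK x))) // und K w = v},
        (1 - psiIK x w.1.asIdeal *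
          (Ideal.absNorm w.1.asIdeal : ℂ) ^ (((2 * j : ℕ) : ℂ) / 2 - s)) := by
  classical
  unfold btK
  rw [prod_map_sum, prod_symbols (fun c => Multiset.prod (Multiset.map
    (fun x => 1 - x * (Ideal.absNorm v.asIdeal : ℂ) ^ (-s))
      ((evK nn mm L v (pr c)).map fun z => (Ideal.absNorm v.asIdeal : ℂ) ^ tw c * z))),
    Fintype.prod_sum_type, Fintype.prod_sigma]
  congr 1
  · refine prod_congr rfl fun c _ => ?_
    rw [Multiset.map_map, Fintype.prod_sigma]
    unfold evK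
    rw [dif_pos c.2.2, prod_map_sum]
    refine prod_congr rfl fun M _ => ?_
    have hvM := coprime_levelK hv M
    obtain ⟨hn, -, hn3, -⟩ := nA_facts h2 c.2.1 c.2.2
    rw [prod_map_sum]
    have h3 : ∀ ω : OrbK K (nA nn (pr c.1)) M.1,
        (Multiset.map ((fun x => 1 - x * (Ideal.absNorm v.asIdeal : ℂ) ^ (-s)) ∘
          fun z => (Ideal.absNorm v.asIdeal : ℂ) ^ tw c.1 * z)
          (if (fam nn mm c.2.2).P (repK ω).1 then
            ∑ w : {w : HeightOneSpectrum (𝓞 (EE K M.1)) // und K w = v},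
              rts (foK v M.1) (JnK (pr c.1).card (repK ω).1 w.1) else 0)).prod =
        if (fam nn mm c.2.2).P (repK ω).1 then
          ∏ w : {w : HeightOneSpectrum (𝓞 (EE K M.1)) // und K w = v},
          (1 - psi M.1 (ffK K M.1) (repK ω).1 ((nA nn (pr c.1) + 1) / 2) w.1.asIdeal *
            (Ideal.absNorm w.1.asIdeal : ℂ) ^ (((2 * j : ℕ) : ℂ) / 2 - s)) else 1 := by
      intro ω
      by_cases hP : (fam nn mm c.2.2).P (repK ω).1
      · rw [if_pos hP, if_pos hP, prod_map_sum]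
        refine prod_congr rfl fun w _ => ?_
        have h4 : (fun x => 1 - x * (Ideal.absNorm v.asIdeal : ℂ) ^ (-s)) ∘
          (fun z => (Ideal.absNorm v.asIdeal : ℂ) ^ tw c.1 * z) = fun z =>
            1 - z * ((Ideal.absNorm v.asIdeal : ℂ) ^ tw c.1 *
              (Ideal.absNorm v.asIdeal : ℂ) ^ (-s)) := by
          funext z
          simp only [Function.comp_apply]
          ring
        rw [h4, prod_rts (foK_ne hvM), some_factorK hn hvM hn3 w.2 (repK ω).1 s]
      · rw [if_neg hP, if_neg hP]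
        rfl
    rw [prod_congr rfl fun ω _ => h3 ω, ← prod_filter]
    refine prod_subtype _ (fun ω => ?_) (fun ω : OrbK K (nA nn (pr c.1)) M.1 =>
      ∏ w : {w : HeightOneSpectrum (𝓞 (EE K M.1)) // und K w = v},
          (1 - psi M.1 (ffK K M.1) (repK ω).1 ((nA nn (pr c.1) + 1) / 2) w.1.asIdeal *
            (Ideal.absNorm w.1.asIdeal : ℂ) ^ (((2 * j : ℕ) : ℂ) / 2 - s)))
    rw [mem_filter]
    exact ⟨fun h => h.2, fun h => ⟨mem_univ _, h⟩⟩
  · refine prod_congr rfl fun c _ => ?_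
    unfold evK
    rw [dif_neg c.2.2, Multiset.map_singleton, Multiset.map_singleton, Multiset.prod_singleton]
    have h3 := none_factorK (n := 2 * j + 1) (v := v) ⟨j, rfl⟩ s
    rw [Nat.add_sub_cancel] at h3
    have h4 : tw c.1 = j := by
      have h5 := dg_eq c.1
      have h6 := c.2.2
      rw [not_nonempty_iff_eq_empty] at h6
      rw [c.2.1, h6, sum_empty] at h5
      omega
    rw [h4, mul_one]
    have h5 : 2 * j / 2 = j := by omega
    rw [h5] at h3
    exact h3.symm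

/-- **The order of the pole.** -/
theorem order_prodK (h2 : ∀ i, 2 ≤ nn i) (hL : 0 < L) (hm : ∀ i, 0 < mm i) (hmL : ∀ i, mm i ∣ L)
    {n : ℕ} {eqs : Set (MvPolynomial (Fin n) (𝓞 K))} (hX : IsProdK nn mm eqs) {j : ℕ}
    (hj : j ≤ ∑ i, (nn i - 1)) {N : ℕ} {B : HeightOneSpectrum (𝓞 K) → ℂ[X]}
    (hB : IsEulerSystem (K := K) (F := K) eqs (∑ i, (nn i - 1)) (2 * j) N B) :
    HasOrder (2 * j) B (-(Nat.card {x : JIK K nn mm L (2 * j) // IsTriv (psiIK x)} : ℤ)) := by
  have h1 : ∀ i, 1 ≤ nn i := fun i => (by norm_num : 1 ≤ 2).trans (h2 i)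
  refine hasOrder_fields (K := K) (fun x : JIK K nn mm L (2 * j) => EE K (lvK x)) psiIK
    (fun x => exists_hecke_prodK h2 x) B ?_ hB.2
  filter_upwards [euler_eval_prodK h1 hL hm hmL hX (by omega) hB, eventually_copK hL] with v h3 hv s
  rw [h3, factor_prodK h2 hv s]

end Run7.h365.KF
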