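import Pool.Agent.Run7.h365.KF.Stm
import Pool.Agent.Run7.h365.KF.Po

/-!
# The trivial Hecke characters and the rational characters over a number field
-/

set_option autoImplicit false
set_option linter.unusedSectionVars false
set_option linter.style.haveILetI false

namespace Run7.h365.KF

open Finset NumberField IsDedekindDomain Filter Run7.h365.FV
open Run7.h365.PF (sg sg_odd PP_theta')
open Run7.h365.CM (IsTriv norm_v_pos)
open Run7.h365.CM.T (triv_of_ae)

variable {K : Type} [Field K] [NumberField K] {n M : ℕ}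

/-- the Jacobi sums of `b` are powers of the norm -/
def PwK (K : Type) [Field K] [NumberField K] (b : Fin n → ZMod M) [NeZero M] : Prop :=
  ∀ᶠ v : HeightOneSpectrum (𝓞 K) in cofinite, ∀ (F : Type) [Field F] [Fintype F] [DecidableEq F]
    (φ : 𝓞 K →+* F), RingHom.ker φ = v.asIdeal → ∀ χ : MulChar F ℂ, orderOf χ = M →
    PP χ b = (Fintype.card F : ℂ) ^ ((n + 1) / 2)

theorem map_full_gauss [NeZero M] (b : Fin n → ZMod M) {F : Type} [Field F] [Fintype F]
    [DecidableEq F] {χ : MulChar F ℂ} (hχ : orderOf χ = M) {ψ : AddChar F ℂ} (hψ : ψ.IsPrimitive) :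
    ((univ.val.map (full b)).map fun z => gaussSum (χ ^ z.val) ψ).prod = PP χ b := by
  rw [Multiset.map_map, PP_eq hχ hψ]
  change ∏ i, gaussSum (χ ^ (full b i).val) ψ = _
  rw [Fin.prod_univ_succ]
  rfl

theorem ratK_iff [NeZero M] (b : Fin n → ZMod M) :
    RatK K (univ.val.map (full b)) ↔ PwK K b := by
  have hcard : Multiset.card (univ.val.map (full b)) = n + 1 := by
    rw [Multiset.card_map, card_val, card_univ, Fintype.card_fin]
  unfold RatK PwK
  rw [hcard]
  constructor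
  · intro h
    filter_upwards [h] with v hv F _ _ _ φ hφ χ hχ
    have hψ := AddChar.FiniteField.primitiveChar_to_Complex_isPrimitive F
    have hψ1 : AddChar.FiniteField.primitiveChar_to_Complex F ≠ 1 := by
      have := hψ one_ne_zero
      rwa [AddChar.mulShift_one] at this
    have h1 := hv F φ hφ χ _ hχ hψ1
    rwa [map_full_gauss b hχ hψ] at h1
  · intro h
    filter_upwards [h] with v hv F _ _ φ hφ χ ψ hχ hψ
    classical
    have h1 := hv F φ hφ χ hχ
    rwa [map_full_gauss b hχ (AddChar.IsPrimitive.of_ne_one hψ)]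

theorem PwK_smul [NeZero M] (c : (ZMod M)ˣ) {b : Fin n → ZMod M} (h : PwK K b) :
    PwK K (fun i => (c : ZMod M) * b i) := by
  unfold PwK at h ⊢
  filter_upwards [h] with v hv F _ _ _ φ hφ χ hχ
  rw [← PP_pow hχ c.isUnit]
  apply hv F φ hφ
  have h1 : (c : ZMod M).val.Coprime M := ZMod.val_coe_unit_coprime c
  rw [orderOf_pow, hχ, Nat.Coprime.gcd_eq_one h1.symm, Nat.div_one]

theorem PwK_smul_iff [NeZero M] (c : (ZMod M)ˣ) (b : PT n M) : PwK K (c • b).1 ↔ PwK K b.1 := by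
  constructor
  · intro h
    have h1 := PwK_smul c⁻¹ h
    have h2 : (fun i => ((c⁻¹ : (ZMod M)ˣ) : ZMod M) * (c • b).1 i) = b.1 := by
      funext i
      rw [smul_val]
      simp only
      rw [← mul_assoc, Units.inv_mul, one_mul]
    rwa [h2] at h1
  · exact PwK_smul c

theorem tendsto_und (K : Type) [Field K] [NumberField K] {E : Type} [Field E] [NumberField E]
    [Algebra K E] : Tendsto (und K (L := E)) cofinite cofinite := by
  refine Tendsto.cofinite_of_finite_preimage_singleton fun v => ?_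
  exact (fib_finite (K := K) (L := E) v : Finite {w : HeightOneSpectrum (𝓞 E) // und K w = v})

theorem triv_of_PwK [NeZero M] (hn : Odd n) (hn2 : 2 ≤ n) {b : Fin n → ZMod M} (hb : Good b)
    (h : PwK K b) : IsTriv (psi M (ffK K M) b ((n + 1) / 2)) := by
  obtain ⟨ζ, hζ⟩ := exists_zetaK K M
  have hcnt : cnt b = 2 * ((n + 1) / 2) := by
    rw [cnt_good hb]
    obtain ⟨j, hj⟩ := hn
    omega
  obtain ⟨𝔣, k', t, hH⟩ := isHecke_psiK (K := K) (n := n) hn2 hn (ffK K M) hcnt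
  refine triv_of_ae hH ?_
  unfold PwK at h
  have h1 := (tendsto_und K (E := EE K M)).eventually (h.and (eventually_copK (NeZero.pos M)))
  filter_upwards [h1] with w hw
  obtain ⟨hw1, hw2⟩ := hw
  have hMw : (M : 𝓞 (EE K M)) ∉ w.asIdeal := notMem_w hw2 rfl
  obtain ⟨κ, _, _, _, φ, hφ, hker, hcard⟩ := exists_model w
  obtain ⟨χ, hχ⟩ := exists_isRes hζ φ (ne_zero_of_ker hMw hker)
  have hinj : Function.Injective ((ffK K M).comp (algebraMap (𝓞 (EE K M)) (EE K M))) :=
    (ffK K M).injective.comp RingOfIntegers.coe_injective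
  have h1 := hw1 κ (φ.comp (algebraMap (𝓞 K) (𝓞 (EE K M)))) (by
      rw [← RingHom.comap_ker, hker]; rfl)
    (χ.ringHomComp ((ffK K M).comp (algebraMap (𝓞 (EE K M)) (EE K M))))
    ((orderOf_comp hinj χ).trans hχ.1)
  rw [PP_map] at h1
  have h2 : ffK K M ((Pv M n w b : 𝓞 (EE K M)) : EE K M) =
      (Fintype.card κ : ℂ) ^ ((n + 1) / 2) := by
    rw [← h1, isP_Pv (n := n) hζ w hMw κ φ hφ hker χ hχ]
    rfl
  rw [psi_applyF, PI_prime b w hMw, h2, hcard]
  apply mul_inv_cancel₀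
  apply pow_ne_zero
  exact_mod_cast absNorm_ne w

theorem PwK_of_triv [NeZero M] (hn : Odd n) {b : Fin n → ZMod M}
    (h : IsTriv (psi M (ffK K M) b ((n + 1) / 2))) : PwK K b := by
  obtain ⟨g⟩ := exists_hom K M
  letI : Algebra (LL M) (EE K M) := g.toAlgebra
  obtain ⟨ζ, hζ⟩ := exists_zeta M
  unfold PwK
  filter_upwards [eventually_copK (NeZero.pos M)] with v hv F _ _ _ φ hφ χ hχ
  obtain ⟨p, hp⟩ := CharP.exists F
  have : Fact p.Prime := ⟨CharP.char_is_prime F p⟩
  have hpv : (p : 𝓞 K) ∈ v.asIdeal := by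
    rw [← hφ, RingHom.mem_ker, map_natCast, CharP.cast_eq_zero]
  -- the number of the elements of `F`
  obtain ⟨e, he⟩ : ∃ e, Fintype.card F = Ideal.absNorm v.asIdeal ^ e := by
    obtain ⟨k, _, _, _, φ0, hφ0, hker0, hcard0⟩ := exists_model v
    obtain ⟨j, hj⟩ := exists_factor hφ0 (hker0.trans hφ.symm)
    letI : Algebra k F := j.toAlgebra
    exact ⟨Module.finrank k F, by rw [← hcard0]; exact Module.card_eq_pow_finrank⟩
  have hM : M ∣ Fintype.card F - 1 := by
    rw [← hχ]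
    exact MulChar.orderOf_dvd_card_sub_one F χ
  have hfe := (dvd_iff_foK he).1 hM
  obtain ⟨s, hs⟩ := hfe
  obtain ⟨w, hw⟩ := exists_aboveK v M
  have hpw : (p : 𝓞 (EE K M)) ∈ w.asIdeal := by
    have h1 : (p : 𝓞 K) ∈ (und K w).asIdeal := by rw [hw]; exact hpv
    have h2 : algebraMap (𝓞 K) (𝓞 (EE K M)) (p : 𝓞 K) ∈ w.asIdeal := h1
    rwa [map_natCast] at h2
  have hcw : Fintype.card F = Ideal.absNorm w.asIdeal ^ s := by
    rw [absNorm_wK hv hw, he, ← pow_mul, hs]
  obtain ⟨θ, hθ⟩ := exists_theta (κ := F) hpw hcw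
  have hMw := notMem_w hv hw
  have hMF : (M : F) ≠ 0 := by
    intro h
    apply hMw
    rw [← hθ, RingHom.mem_ker, map_natCast, h]
  have hi : Function.Injective (algebraMap (𝓞 (LL M)) (𝓞 (EE K M))) :=
    FaithfulSMul.algebraMap_injective _ _
  have hζ' : IsPrimitiveRoot (algebraMap (𝓞 (LL M)) (𝓞 (EE K M)) ζ) M := hζ.map_of_injective hi
  obtain ⟨T', hT'⟩ := exists_isRes hζ (θ.comp (algebraMap (𝓞 (LL M)) (𝓞 (EE K M)))) hMF
  have hT : IsRes M θ (T'.ringHomComp (algebraMap (𝓞 (LL M)) (𝓞 (EE K M)))) := by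
    refine ⟨(orderOf_comp hi _).trans hT'.1, fun x hx => ?_⟩
    rw [MulChar.ringHomComp_apply]
    exact hT'.2 x hx
  obtain ⟨f₁, hf₁⟩ : ∃ f₁ : 𝓞 (EE K M) →+* ℂ,
    f₁ = (ffK K M).comp (algebraMap (𝓞 (EE K M)) (EE K M)) := ⟨_, rfl⟩
  have hf₁i : Function.Injective f₁ := by
    rw [hf₁]
    exact (ffK K M).injective.comp RingOfIntegers.coe_injective
  have h3 := PP_theta' (n := n) hζ' hf₁i hMF (w := w) hθ (r := s) hcw hT b
  rw [sg_odd hn, one_mul, one_mul] at h3
  -- the value at `w`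
  have h1 : psi M (ffK K M) b ((n + 1) / 2) w.asIdeal = 1 := by
    apply h
    rw [psi_applyF, PI_prime b w hMw]
    apply mul_ne_zero
    · rw [map_ne_zero]
      intro h0
      exact Pv_neF hζ' w hMw b (RingOfIntegers.ext h0)
    · apply inv_ne_zero
      apply pow_ne_zero
      exact_mod_cast absNorm_ne w
  rw [psi_applyF, PI_prime b w hMw] at h1
  have h2 : (Ideal.absNorm w.asIdeal : ℂ) ^ ((n + 1) / 2) ≠ 0 := by
    apply pow_ne_zero
    exact_mod_cast absNorm_ne w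
  have h4 : f₁ (Pv M n w b) = (Ideal.absNorm w.asIdeal : ℂ) ^ ((n + 1) / 2) := by
    rw [mul_inv_eq_one₀ h2] at h1
    rw [hf₁]
    exact h1
  have hgi : Function.Injective (f₁.comp (algebraMap (𝓞 (LL M)) (𝓞 (EE K M)))) := hf₁i.comp hi
  have h5 : (T'.ringHomComp (algebraMap (𝓞 (LL M)) (𝓞 (EE K M)))).ringHomComp f₁ =
      T'.ringHomComp (f₁.comp (algebraMap (𝓞 (LL M)) (𝓞 (EE K M)))) := rfl
  rw [h4, h5, PP_map] at h3
  have h6 : PP T' b = ((Fintype.card F : ℕ) : 𝓞 (LL M)) ^ ((n + 1) / 2) := by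
    apply hgi
    rw [h3, map_pow, map_natCast, hcw]
    push_cast
    rw [← pow_mul, ← pow_mul, mul_comm]
  have hT₁ : orderOf (T'.ringHomComp (f₁.comp (algebraMap (𝓞 (LL M)) (𝓞 (EE K M))))) = M :=
    (orderOf_comp hgi _).trans hT'.1
  obtain ⟨c₀, rfl⟩ := exists_unit_pow hT₁ hχ
  obtain ⟨σ, hσ⟩ : ∃ σ : Gal(LL M/ℚ), cu M σ = c₀ :=
    ⟨(IsCyclotomicExtension.Rat.galEquivZMod M (LL M)).symm c₀, MulEquiv.apply_symm_apply _ _⟩
  have h7 := act_PP (n := n) hT'.1 σ b
  rw [hσ, h6, map_pow, map_natCast] at h7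
  rw [PP_pow hT₁ c₀.isUnit, PP_map, ← h7, map_pow, map_natCast]

/-- **The trivial Hecke characters are the rational characters.** -/
theorem triv_iffK [NeZero M] (hn : Odd n) (hn2 : 2 ≤ n) {b : Fin n → ZMod M} (hb : Good b) :
    IsTriv (psi M (ffK K M) b ((n + 1) / 2)) ↔ PwK K b :=
  ⟨PwK_of_triv hn, triv_of_PwK hn hn2 hb⟩

end Run7.h365.KF
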