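import Pool.Agent.Run7.h365.KF.Cov
import Pool.Agent.Run7.h365.KF.Tr
import Pool.Agent.Run7.h365.PF.Rk
import Pool.Agent.Run7.h365.TD.Odd

/-!
# The rational characters over a number field are Hodge characters, and they are algebraic
-/

set_option autoImplicit false
set_option linter.unusedSectionVars false

namespace Run7.h365.KF

open Finset NumberField IsDedekindDomain Filter Run7.h365.FV Run7.h365.PF
open Run7.h365.TD (RationalOver PP_pow_over exists_w hodge_of_pow diag_generated)
open Pool.Agent.H916R2 (IsHodge Generated)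
open Run7.h919 (Covered PairBound SmallPrime)
open Pool.Agent.N992 (FourBase)
open Pool.Agent.Y2.Cv (GoodDegree2 SurfaceOrCurveProduct)

variable {K : Type} [Field K] [NumberField K]

theorem ratK_over {M : ℕ} {s : Multiset (ZMod M)} (h : RatK K s) :
    RationalOver K M (s.map fun a => (a, (1 : 𝓞 K))) := by
  unfold RatK at h
  unfold RationalOver
  filter_upwards [h] with v hv F _ _ φ _ hker χ ψ hχ hψ
  have h1 := hv F φ hker χ ψ hχ hψ
  have h2 : ((s.map fun a => (a, (1 : 𝓞 K))).map fun z => (χ ^ z.1.val) (φ z.2)).prod = 1 := by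
    rw [Multiset.map_map]
    have h3 : ∀ a : ZMod M, ((fun z : ZMod M × 𝓞 K => (χ ^ z.1.val) (φ z.2)) ∘
        fun a => (a, (1 : 𝓞 K))) a = 1 := by
      intro a
      change (χ ^ a.val) (φ 1) = 1
      rw [map_one, map_one]
    rw [Multiset.map_congr rfl fun a _ => h3 a]
    simp
  rw [h2, mul_one, Multiset.map_map, Multiset.card_map]
  exact h1

/-- a rational character is a Hodge character -/
theorem hodge_ratK {M n : ℕ} (hM2 : 2 ≤ M) (hodd : Odd n) {b : Fin n → ZMod M}
    (h0 : ∀ i, full b i ≠ 0) (h : RatK K (univ.val.map (full b))) :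
    IsHodge M (univ.val.map (full b)) := by
  have : NeZero M := ⟨by omega⟩
  have hcard : Multiset.card (univ.val.map (full b)) = n + 1 := by
    rw [Multiset.card_map, card_val, card_univ, Fintype.card_fin]
  have hR : RationalOver K M (univ.val.map fun i => (full b i, (1 : 𝓞 K))) := by
    have h1 := ratK_over h
    rw [Multiset.map_map] at h1
    exact h1
  obtain ⟨N, hN⟩ := PP_pow_over (K := K) (k := ℚ) (R0 := 1) (t := M) (B := 1)
    (fun ℓ _ _ => exists_w (B := 1) (algebraMap ℚ (CyclotomicField 1 ℚ)) (one_dvd _)) hodd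
    (by rw [mul_one])
    (Eventually.of_forall fun v ℓ _ _ _ F _ φ _ _ i => ⟨1, one_ne_zero, by
      rw [map_one, one_pow]⟩) hR
  have hK0 : Module.finrank ℚ K ≠ 0 := Module.finrank_pos.ne'
  have hRne : NeZero (1 * Module.finrank ℚ K) := ⟨mul_ne_zero one_ne_zero hK0⟩
  refine hodge_of_pow (R := 1 * Module.finrank ℚ K) (B := 1) (N := N) hM2 ?_ ?_ ?_ ?_
  · intro h1
    obtain ⟨i, -, hi⟩ := Multiset.mem_map.1 h1
    exact h0 i hi
  · rw [hcard]
    exact hodd.add_one
  · have h1 : (univ.val.map (full b)).sum = ∑ i, full b i := rfl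
    rw [h1]
    exact sum_full b
  · intro ℓ hℓ _ hd χ ψ hχ hψ
    have h1 := hN ℓ hℓ hd χ hχ
    rw [PP_eq hχ (AddChar.IsPrimitive.of_ne_one hψ)] at h1
    rw [hcard, ← h1, Multiset.map_map]
    congr 1
    change ∏ i, gaussSum (χ ^ (full b i).val) ψ = _
    rw [Fin.prod_univ_succ]
    rfl

/-- Few entries. -/
theorem covered_of_six {m N : ℕ} (h4 : ¬ 4 ∣ m) (hN : N ≤ 6) : Covered m N := by
  right; right
  refine ⟨h4, ?_, ?_⟩
  · split_ifs <;> omega
  · intro p q hp _ _ _ hp4 _
    obtain ⟨hp1, _, hp3⟩ := hp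
    have h3 : p ≤ 25 := by
      split_ifs at hp3 <;> omega
    have h5 : p = 1 ∨ p = 5 ∨ p = 9 ∨ p = 13 ∨ p = 17 ∨ p = 21 ∨ p = 25 := by omega
    rcases h5 with h | h | h | h | h | h | h
    · exact absurd hp1 (by rw [h]; norm_num)
    · left; exact h
    · exact absurd hp1 (by rw [h]; norm_num)
    · right; left; exact h
    · right; right; left; exact h
    · exact absurd hp1 (by rw [h]; norm_num)
    · exact absurd hp1 (by rw [h]; norm_num)

theorem algK_of {M : ℕ} (hM : 0 < M) {s : Multiset (ZMod M)} (h : IsGenerated M s) : AlgK M s := by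
  obtain ⟨k, hk, hg⟩ := h
  exact ⟨k, ⟨(Nat.mul_pos hk hM).ne'⟩, Pool.Agent.Y2.generated_mono (fun _ h => Or.inl h) hg⟩

theorem algK_covered {M N : ℕ} (hM : 0 < M) {s : Multiset (ZMod M)} (hs : IsHodge M s)
    (hne : s ≠ 0) (hcard : Multiset.card s ≤ N) (h : Covered M N) : AlgK M s := by
  have : NeZero M := ⟨hM.ne'⟩
  obtain ⟨l, hl, hg⟩ := Run7.h919.main_covered M N h
  exact ⟨l, hl, hg s hs hne hcard⟩

theorem algK_cov {M N : ℕ} (hM : 0 < M) {s : Multiset (ZMod M)} (hs : IsHodge M s)
    (hne : s ≠ 0) (hcard : Multiset.card s = N) (hrat : RatK K s) (h : CovK K M N) : AlgK M s := by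
  have : NeZero M := ⟨hM.ne'⟩
  rcases h with h | h | h | h | h | h
  · exact algK_covered hM hs hne hcard.le (Run7.h919.covered_of_odd h.1 h.2)
  · exact algK_covered hM hs hne hcard.le (covered_of_six h.1 h.2)
  · exact algK_covered hM hs hne hcard.le h
  · refine algK_of hM (isGenerated_of hM (Pool.Agent.Y2.generated_mono (fun _ h => h.elim)
      (Run7.h919.main_pairs hM hs hne ?_)))
    rw [hcard]
    exact h
  · exact algK_of hM (isGenerated_good hM h hs hne)
  · obtain ⟨⟨k, _, _, _, B, _, ⟨i⟩, hodd⟩, hfew⟩ := h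
    have h1 := diag_generated (K := K) i hodd hM (s := s.map fun a => (a, (1 : 𝓞 K)))
      (by rw [Multiset.card_map, hcard]; exact hfew)
      (fun h2 => hne (Multiset.map_eq_zero.1 h2)) (by rw [Multiset.card_map]; exact hs.2.1)
      (fun z hz => by
        obtain ⟨a, ha, rfl⟩ := Multiset.mem_map.1 hz
        exact ⟨fun h3 => hs.1 (by rw [← h3]; exact ha), one_ne_zero⟩)
      (fun _ z hz => by
        obtain ⟨a, ha, rfl⟩ := Multiset.mem_map.1 hz
        exact ⟨1, by simp⟩)
      (fun _ z hz => by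
        obtain ⟨a, ha, rfl⟩ := Multiset.mem_map.1 hz
        rfl)
      (by
        rw [Multiset.map_map]
        have h3 : (s.map (Prod.fst ∘ fun a => (a, (1 : 𝓞 K)))) = s := Multiset.map_id s
        rw [h3]
        exact hs.2.2.1) (ratK_over hrat)
    have h3 : ((s.map fun a => (a, (1 : 𝓞 K))).map Prod.fst) = s := by
      rw [Multiset.map_map]
      exact Multiset.map_id s
    rw [h3] at h1
    exact algK_of hM h1

section char

variable {r : ℕ} {nn mm : Fin r → ℕ} {M : ℕ} {A : Finset (Fin r)}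

/-- **The rational characters.** -/
theorem alg_charK (hM : 0 < M) (hA : A.Nonempty) (h2 : ∀ i, 2 ≤ nn i)
    (hev : Even (∑ i ∈ A, (nn i + 1))) {a : Ent nn A → ZMod M} (ha : IsChar nn mm A a)
    (hra : RatK K (univ.val.map a)) : IsHodge M (univ.val.map a) ∧
      (CovK K M (∑ i ∈ A, (nn i + 1)) → AlgK M (univ.val.map a)) := by
  have hM2 : 2 ≤ M := by
    by_contra hlt
    have h1 : M = 1 := by omega
    subst h1
    obtain ⟨i, hi⟩ := hA
    exact ha.ne_zero ⟨⟨i, hi⟩, 0⟩ (Subsingleton.elim _ _)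
  obtain ⟨b, rfl⟩ := tof_surj hA ha.sum_eq
  have h3 := nA_succ nn hA
  have hodd : Odd (nA nn A) := by
    rw [← h3] at hev
    rw [← Nat.not_even_iff_odd]
    intro he
    rw [Nat.even_add_one] at hev
    exact hev he
  have h4 : univ.val.map (tof hA b) = univ.val.map (full b) := map_tof hA b fun z => z
  have h0 : ∀ i, full b i ≠ 0 := by
    have h5 := ((isChar_tof hA).1 ha).1.1
    exact (good_iff b).1 h5
  rw [h4] at hra ⊢
  have hH := hodge_ratK hM2 hodd h0 hra
  have hcard : Multiset.card (univ.val.map (full b)) = nA nn A + 1 := by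
    rw [Multiset.card_map, card_val, card_univ, Fintype.card_fin]
  refine ⟨hH, fun h => algK_cov hM hH ?_ (hcard.trans h3) hra h⟩
  intro h5
  rw [h5, Multiset.card_zero] at hcard
  omega

end char

end Run7.h365.KF
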