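import Pool.Agent.Run7.h365.KF.Bt
import Pool.Agent.Run7.h365.PF.Seg

/-!
# The equations of the product of Fermat varieties over a number field, in the embedding of Segre
-/

set_option autoImplicit false
set_option linter.unusedSectionVars false

namespace Run7.h365.KF

open Finset NumberField IsDedekindDomain Filter Run7.h365.FV Run7.h365.PF
open Pool.Agent.W353.EF (cone)
open Function (update)

variable {r : ℕ} (K : Type) [Field K] [NumberField K]

/-- The coordinate of the index `t`, as a variable. -/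
noncomputable def vrbK (nn : Fin r → ℕ) (t : Tu nn) :
    MvPolynomial (Fin (Fintype.card (Tu nn))) (𝓞 K) :=
  MvPolynomial.X (Fintype.equivFin (Tu nn) t)

/-- The equations of the product of the Fermat varieties over `K` in the embedding of Segre, in the
coordinates `z_t = ∏ x_(i, t i)`: the equations `z_s z_t = z_s' z_t'`, where `s'`, `t'` arise from `s`,
`t` by the exchange of the `i`-th components, and for every `i` and `t` the equation of the `i`-th
Fermat variety for the coordinates `z_t'` of the tuples `t'` which differ from `t` only in the `i`-th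
component. -/
def segreK (nn mm : Fin r → ℕ) : Set (MvPolynomial (Fin (Fintype.card (Tu nn))) (𝓞 K)) :=
  {f | ∃ (s t : Tu nn) (i : Fin r), f = vrbK K nn s * vrbK K nn t -
    vrbK K nn (update s i (t i)) * vrbK K nn (update t i (s i))} ∪
  {f | ∃ (t : Tu nn) (i : Fin r), f = ∑ j, vrbK K nn (update t i j) ^ mm i}

variable {K}

section seg

variable {nn mm : Fin r → ℕ} {κ : Type} [Field κ]

theorem cone_segreK (φ : 𝓞 K →+* κ) :
    cone (segreK K nn mm) φ = Nat.card {z : Tu nn → κ // z ≠ 0 ∧ Sg z ∧ Fe mm z} := by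
  unfold cone
  refine Nat.card_congr (Equiv.subtypeEquiv
    (Equiv.arrowCongr (Fintype.equivFin (Tu nn)).symm (Equiv.refl κ)) fun u => ?_)
  have h0 : ∀ t, (Equiv.arrowCongr (Fintype.equivFin (Tu nn)).symm (Equiv.refl κ) u) t =
      u (Fintype.equivFin (Tu nn) t) := fun t => rfl
  have h1 : ∀ t, MvPolynomial.eval₂ φ u (vrbK K nn t) = u (Fintype.equivFin (Tu nn) t) := by
    intro t
    unfold vrbK
    rw [MvPolynomial.eval₂_X]
  refine and_congr ?_ ⟨fun h => ⟨fun s t i => ?_, fun t i => ?_⟩, fun h f hf => ?_⟩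
  · refine not_congr ⟨fun h => ?_, fun h => ?_⟩
    · rw [h]
      rfl
    · funext x
      obtain ⟨t, rfl⟩ := (Fintype.equivFin (Tu nn)).surjective x
      exact congrFun h t
  · have h2 := h _ (Or.inl ⟨s, t, i, rfl⟩)
    rw [MvPolynomial.eval₂_sub, MvPolynomial.eval₂_mul, MvPolynomial.eval₂_mul, h1, h1, h1, h1,
      sub_eq_zero] at h2
    exact h2
  · have h2 := h _ (Or.inr ⟨t, i, rfl⟩)
    rw [MvPolynomial.eval₂_sum] at h2
    rw [← h2]
    refine sum_congr rfl fun j _ => ?_
    rw [MvPolynomial.eval₂_pow, h1]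
    rfl
  · rcases hf with ⟨s, t, i, rfl⟩ | ⟨t, i, rfl⟩
    · rw [MvPolynomial.eval₂_sub, MvPolynomial.eval₂_mul, MvPolynomial.eval₂_mul, h1, h1, h1, h1,
        sub_eq_zero]
      exact h.1 s t i
    · rw [MvPolynomial.eval₂_sum, ← h.2 t i]
      refine sum_congr rfl fun j _ => ?_
      rw [MvPolynomial.eval₂_pow, h1]
      rfl

theorem cone_fermatK (n m : ℕ) (φ : 𝓞 K →+* κ) :
    cone (fermatK K n m) φ = Nat.card {x : Fin (n + 1) → κ // x ≠ 0 ∧ ∑ j, x j ^ m = 0} := by
  unfold cone
  refine Nat.card_congr (Equiv.subtypeEquivRight fun u => and_congr Iff.rfl ?_)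
  unfold fermatK
  simp only [Set.mem_singleton_iff, forall_eq, MvPolynomial.eval₂_sum, MvPolynomial.eval₂_pow,
    MvPolynomial.eval₂_X]

end seg

/-- **The product exists.** -/
theorem isProd_segreK (K : Type) [Field K] [NumberField K] (nn mm : Fin r → ℕ) : IsProdK nn mm (segreK K nn mm) := by
  refine Eventually.of_forall fun v κ _ _ φ _ => ?_
  have h1 := card_seg (κ := κ) nn mm
  rw [← cone_segreK φ, prod_congr rfl fun i _ => (cone_fermatK (nn i) (mm i) φ).symm] at h1
  have h2 : (Nat.card κˣ : ℤ) = (Nat.card κ : ℤ) - 1 := by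
    have h3 := Nat.card_units κ
    have h4 : 0 < Nat.card κ := Nat.card_pos
    omega
  rw [← h2, mul_comm (Nat.card κˣ : ℤ)]
  exact_mod_cast h1

end Run7.h365.KF
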