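import Pool.Agent.Run7.h365.PF.Alg
import Pool.Agent.Run7.h919.Tw10

/-!
# Tate's conjecture over number fields: the covered cases
-/

set_option autoImplicit false

namespace Run7.h365.KF

open Run7.h919 (Covered PairBound)
open Pool.Agent.H916R2 (Generated)
open Pool.Agent.N992 (FourBase)
open Pool.Agent.Y2.Cv (GoodDegree2)
open Run7.h365.TD (FewEntries)

/-- The number field `K` has odd degree over a subfield `k` of a cyclotomic field: every number field
of odd degree, every abelian number field, and the extensions of odd degree of these. -/
def OddOverAbelian (K : Type) [Field K] [NumberField K] : Prop :=
  ∃ (k : Type) (_ : Field k) (_ : NumberField k) (_ : Algebra k K) (B : ℕ) (_ : NeZero B),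
    Nonempty (k →+* CyclotomicField B ℚ) ∧ Odd (Module.finrank k K)

/-- The number field `K`, the level `M` and the number `N` of the entries: `M` is odd and `N ≤ 12`; or
`M` is not divisible by four and `N ≤ 6`; or `Covered M N` (for instance `M` has no prime factors
`p ≤ 2 N + 1`, for even `M` no prime factors `p ≤ 4 N + 1`, with `p` congruent to one modulo four); or
the prime factors of `M` are large compared with the square root of `N` (`PairBound`), or they are small
(`GoodDegree2`); or `K` has odd degree over an abelian field and `FewEntries M N` is true (`M` has at
most two odd prime factors, or it is not divisible by four and it has at most three odd prime factors or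
there are few entries: `N < 30` for odd `M`, `N < 15` for even `M`, or the product of the numbers
`p - 1` for any four odd prime factors `p` of `M` is larger than `16 N`, `32 N` for even `M`). -/
def CovK (K : Type) [Field K] [NumberField K] (M N : ℕ) : Prop :=
  (Odd M ∧ N ≤ 12) ∨ (¬ 4 ∣ M ∧ N ≤ 6) ∨ Covered M N ∨ PairBound M N ∨ GoodDegree2 M ∨
    (OddOverAbelian K ∧ FewEntries M N)

/-- The line of the character `s` of level `M` is algebraic by the known constructions: for some
`k > 0` the character `k s` of degree `k M` belongs to the family generated by the pairs `{a, -a}`, the
standard characters (Aoki, Shioda) and the base `FourBase` (the Hodge characters with four entries, the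
curve products and the modular characters), under unions and the removal of pairs (Shioda). -/
def AlgK (M : ℕ) (s : Multiset (ZMod M)) : Prop :=
  ∃ k : ℕ, ∃ _ : NeZero (k * M), Generated (k * M) (FourBase (k * M))
    (s.map fun a => ((k * a.val : ℕ) : ZMod (k * M)))

end Run7.h365.KF
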