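import Pool.Agent.Run7.h365.FV.HDv
import Pool.Agent.Run7.h365.FV.Rts

/-!
# The primes of the field of `M`-th roots of unity over a number field
-/

set_option autoImplicit false
set_option linter.unusedSectionVars false

namespace Run7.h365.KF

open Finset NumberField IsDedekindDomain Run7.h365.FV
open scoped Pointwise

/-- the field of `M`-th roots of unity over `K` -/
abbrev EE (K : Type) [Field K] [NumberField K] (M : ℕ) : Type := CyclotomicField M K

section inst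

variable (K : Type) [Field K] [NumberField K] (M : ℕ) [NeZero M]

instance isCycK : IsCyclotomicExtension {M} K (EE K M) :=
  haveI : NeZero ((M : ℕ) : K) := ⟨by exact_mod_cast NeZero.ne M⟩
  CyclotomicField.isCyclotomicExtension M K

instance numE : NumberField (EE K M) := IsCyclotomicExtension.numberField {M} K (EE K M)

instance galE : IsGalois K (EE K M) := IsCyclotomicExtension.isGalois {M} K (EE K M)

end inst

variable {K : Type} [Field K] [NumberField K] {M : ℕ} [NeZero M]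

/-- the action of an automorphism on the integers -/
noncomputable def actK (σ : Gal(EE K M/K)) : 𝓞 (EE K M) →+* 𝓞 (EE K M) :=
  MulSemiringAction.toRingHom Gal(EE K M/K) (𝓞 (EE K M)) σ

theorem actK_apply (σ : Gal(EE K M/K)) (x : 𝓞 (EE K M)) : actK σ x = σ • x := rfl

theorem actK_coe (σ : Gal(EE K M/K)) (x : 𝓞 (EE K M)) :
    ((actK σ x : 𝓞 (EE K M)) : EE K M) = σ (x : EE K M) := rfl

theorem actK_inj (σ : Gal(EE K M/K)) : Function.Injective (actK σ) := by
  intro x y h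
  exact smul_left_cancel σ h

/-- the exponent of an automorphism -/
noncomputable def cuK : Gal(EE K M/K) →* (ZMod M)ˣ :=
  (IsCyclotomicExtension.zeta_spec M K (EE K M)).autToPow K

theorem cuK_inj : Function.Injective (cuK (K := K) (M := M)) :=
  (IsCyclotomicExtension.zeta_spec M K (EE K M)).autToPow_injective K

theorem exists_zetaK (K : Type) [Field K] [NumberField K] (M : ℕ) [NeZero M] :
    ∃ ζ : 𝓞 (EE K M), IsPrimitiveRoot ζ M :=
  ⟨_, (IsCyclotomicExtension.zeta_spec M K (EE K M)).toInteger_isPrimitiveRoot⟩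

theorem root_pow_iff {R : Type} [CommMonoid R] {ζ : R} (hζ : IsPrimitiveRoot ζ M) (c : ZMod M)
    (j : ℕ) : ζ ^ c.val = ζ ^ j ↔ c = (j : ZMod M) := by
  rw [(hζ.isOfFinOrder (NeZero.ne M)).pow_inj_mod, ← hζ.eq_orderOf, ← ZMod.natCast_eq_natCast_iff',
    ZMod.natCast_zmod_val]

theorem actK_root (σ : Gal(EE K M/K)) {x : 𝓞 (EE K M)} (hx : x ^ M = 1) :
    actK σ x = x ^ (cuK σ : ZMod M).val := by
  have hζ := IsCyclotomicExtension.zeta_spec M K (EE K M)
  have h1 : (x : EE K M) ^ M = 1 := by exact_mod_cast congrArg (algebraMap (𝓞 (EE K M)) (EE K M)) hx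
  obtain ⟨i, -, hi⟩ := hζ.eq_pow_of_pow_eq_one h1
  apply RingOfIntegers.ext
  rw [actK_coe, ← hi, map_pow, ← hζ.autToPow_spec K σ]
  have h2 : ((x ^ (cuK σ : ZMod M).val : 𝓞 (EE K M)) : EE K M) = (x : EE K M) ^ (cuK σ : ZMod M).val :=
    map_pow (algebraMap (𝓞 (EE K M)) (EE K M)) _ _
  rw [h2, ← hi, ← pow_mul, ← pow_mul, mul_comm]
  rfl

theorem actK_chi {κ : Type} [Field κ] [Fintype κ] [DecidableEq κ] {χ : MulChar κ (𝓞 (EE K M))}
    (hχ : orderOf χ = M) (σ : Gal(EE K M/K)) :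
    χ.ringHomComp (actK σ) = χ ^ (cuK σ : ZMod M).val := by
  refine MulChar.ext fun x => ?_
  have hx := x.ne_zero
  rw [MulChar.ringHomComp_apply, chi_pow hx]
  apply actK_root
  rw [← chi_pow hx, orderOf_dvd_iff_pow_eq_one.1 hχ.dvd, MulChar.one_apply_coe]

/-! ### the decomposition groups -/

theorem absNorm_cardQ (v : HeightOneSpectrum (𝓞 K)) :
    Nat.card (𝓞 K ⧸ v.asIdeal) = Ideal.absNorm v.asIdeal := by
  rw [Ideal.absNorm_apply, Submodule.cardQuot_apply]

theorem notMem_of_coprime {w : HeightOneSpectrum (𝓞 K)} {L : ℕ}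
    (h : (Ideal.absNorm w.asIdeal).Coprime L) : (L : 𝓞 K) ∉ w.asIdeal := by
  intro hL
  apply w.isPrime.ne_top
  rw [Ideal.eq_top_iff_one]
  obtain ⟨a, b, hab⟩ := Nat.isCoprime_iff_coprime.2 h
  have h3 : ((a * (Ideal.absNorm w.asIdeal : ℕ) + b * (L : ℕ) : ℤ) : 𝓞 K) = 1 := by
    rw [hab, Int.cast_one]
  rw [← h3]
  push_cast
  exact w.asIdeal.add_mem (w.asIdeal.mul_mem_left _ (Ideal.absNorm_mem w.asIdeal))
    (w.asIdeal.mul_mem_left _ hL)

section dec

variable {v : HeightOneSpectrum (𝓞 K)} {w : HeightOneSpectrum (𝓞 (EE K M))}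

theorem lies (hw : und K w = v) : w.asIdeal.LiesOver v.asIdeal := ⟨by rw [← hw]; rfl⟩

theorem notMem_w (hv : (Ideal.absNorm v.asIdeal).Coprime M) (hw : und K w = v) :
    (M : 𝓞 (EE K M)) ∉ w.asIdeal := by
  have h1 := notMem_of_coprime hv
  intro h
  apply h1
  rw [← hw]
  change algebraMap (𝓞 K) (𝓞 (EE K M)) (M : 𝓞 K) ∈ w.asIdeal
  rwa [map_natCast]

/-- equal roots of unity -/
theorem root_eq (hM : (M : 𝓞 (EE K M)) ∉ w.asIdeal) {x y : 𝓞 (EE K M)} (hx : x ^ M = 1)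
    (hy : y ^ M = 1) (h : x - y ∈ w.asIdeal) : x = y := by
  obtain ⟨ζ, hζ⟩ := exists_zetaK K M
  obtain ⟨k, _, _, _, φ, hφ, hker, hcard⟩ := exists_model w
  refine root_inj hζ φ (ne_zero_of_ker hM hker) hx hy ?_
  rw [← sub_eq_zero, ← map_sub, ← RingHom.mem_ker, hker]
  exact h

/-- the Frobenius -/
theorem stab_zpowers (hv : (Ideal.absNorm v.asIdeal).Coprime M) (hw : und K w = v) :
    (MulAction.stabilizer Gal(EE K M/K) w.asIdeal).map (cuK (K := K) (M := M)) =
      Subgroup.zpowers (ZMod.unitOfCoprime _ hv) := by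
  have hlies := lies hw
  have hM := notMem_w hv hw
  obtain ⟨ζ, hζ⟩ := exists_zetaK K M
  have hmax := w.isMaximal
  have hmaxv := v.isMaximal
  have hfinw : Finite (𝓞 (EE K M) ⧸ w.asIdeal) := Ring.HasFiniteQuotients.finiteQuotient w.ne_bot
  have hfinv : Finite (𝓞 K ⧸ v.asIdeal) := Ring.HasFiniteQuotients.finiteQuotient v.ne_bot
  let _ := Ideal.Quotient.field w.asIdeal
  let _ := Ideal.Quotient.field v.asIdeal
  apply le_antisymm
  · rintro _ ⟨σ, hσ, rfl⟩
    obtain ⟨p, hp⟩ := CharP.exists (𝓞 K ⧸ v.asIdeal)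
    have : Fact p.Prime := ⟨CharP.char_is_prime (𝓞 K ⧸ v.asIdeal) p⟩
    obtain ⟨i, hi⟩ := FiniteField.exists_forall_apply_eq_pow (𝓞 K ⧸ v.asIdeal) p
      (𝓞 (EE K M) ⧸ w.asIdeal)
      (Ideal.Quotient.stabilizerHom w.asIdeal v.asIdeal Gal(EE K M/K) ⟨σ, hσ⟩)
    have h1 : actK σ ζ - ζ ^ (Ideal.absNorm v.asIdeal ^ i) ∈ w.asIdeal := by
      have h2 := hi (Ideal.Quotient.mk w.asIdeal ζ)
      rw [absNorm_cardQ, ← map_pow] at h2
      rw [← Ideal.Quotient.eq, ← h2]
      rfl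
    have h2 : actK σ ζ = ζ ^ (Ideal.absNorm v.asIdeal ^ i) := by
      refine root_eq hM ?_ ?_ h1
      · rw [← map_pow, hζ.pow_eq_one, map_one]
      · rw [← pow_mul, mul_comm, pow_mul, hζ.pow_eq_one, one_pow]
    rw [actK_root σ hζ.pow_eq_one, root_pow_iff hζ] at h2
    refine ⟨i, Units.ext ?_⟩
    change (((ZMod.unitOfCoprime _ hv) ^ (i : ℤ) : (ZMod M)ˣ) : ZMod M) = _
    rw [zpow_natCast, Units.val_pow_eq_pow_val, ZMod.coe_unitOfCoprime, ← Nat.cast_pow, ← h2]
  · rw [Subgroup.zpowers_le]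
    obtain ⟨σ, hσ⟩ := IsArithFrobAt.exists_of_isInvariant (𝓞 K) Gal(EE K M/K) w.asIdeal
    refine ⟨σ, IsArithFrobAt.mem_stabilizer hσ, ?_⟩
    have h1 : actK σ ζ - ζ ^ Ideal.absNorm v.asIdeal ∈ w.asIdeal := by
      have h2 := hσ ζ
      have h3 : w.asIdeal.under (𝓞 K) = v.asIdeal := by rw [← hw]; rfl
      rw [h3, absNorm_cardQ] at h2
      exact h2
    have h2 : actK σ ζ = ζ ^ Ideal.absNorm v.asIdeal := by
      refine root_eq hM ?_ ?_ h1
      · rw [← map_pow, hζ.pow_eq_one, map_one]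
      · rw [← pow_mul, mul_comm, pow_mul, hζ.pow_eq_one, one_pow]
    rw [actK_root σ hζ.pow_eq_one, root_pow_iff hζ] at h2
    apply Units.ext
    rw [h2, ZMod.coe_unitOfCoprime]

/-- the residue degree -/
noncomputable def foK (v : HeightOneSpectrum (𝓞 K)) (M : ℕ) : ℕ :=
  orderOf ((Ideal.absNorm v.asIdeal : ℕ) : ZMod M)

theorem foK_ne (hv : (Ideal.absNorm v.asIdeal).Coprime M) : foK v M ≠ 0 := by
  unfold foK
  rw [← ZMod.coe_unitOfCoprime _ hv, orderOf_units]
  exact (orderOf_pos _).ne'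

theorem card_stab (hv : (Ideal.absNorm v.asIdeal).Coprime M) (hw : und K w = v) :
    Nat.card (MulAction.stabilizer Gal(EE K M/K) w.asIdeal) = foK v M := by
  have h1 := stab_zpowers hv hw
  have h2 : Nat.card (MulAction.stabilizer Gal(EE K M/K) w.asIdeal) =
      Nat.card ((MulAction.stabilizer Gal(EE K M/K) w.asIdeal).map (cuK (K := K) (M := M))) :=
    Nat.card_congr (Subgroup.equivMapOfInjective _ _ cuK_inj).toEquiv
  rw [h2, h1, Nat.card_zpowers, ← orderOf_units, ZMod.coe_unitOfCoprime]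
  rfl

theorem inertia_one (hv : (Ideal.absNorm v.asIdeal).Coprime M) (hw : und K w = v) :
    Nat.card (w.asIdeal.inertia Gal(EE K M/K)) = 1 := by
  have hM := notMem_w hv hw
  obtain ⟨ζ, hζ⟩ := exists_zetaK K M
  rw [Nat.card_eq_one_iff_unique]
  refine ⟨⟨fun σ τ => ?_⟩, ⟨1⟩⟩
  have h1 : ∀ σ : w.asIdeal.inertia Gal(EE K M/K), σ = 1 := by
    intro σ
    apply Subtype.ext
    apply cuK_inj
    have h2 : actK σ.1 ζ - ζ ∈ w.asIdeal := σ.2 ζ
    have h3 : actK σ.1 ζ = ζ := by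
      refine root_eq hM ?_ hζ.pow_eq_one h2
      rw [← map_pow, hζ.pow_eq_one, map_one]
    rw [actK_root σ.1 hζ.pow_eq_one] at h3
    have h4 : ζ ^ (cuK σ.1 : ZMod M).val = ζ ^ 1 := by rw [h3, pow_one]
    rw [root_pow_iff hζ] at h4
    have h5 : cuK σ.1 = 1 := Units.ext (by rw [h4]; simp)
    rw [h5]
    exact (map_one cuK).symm
  rw [h1 σ, h1 τ]

theorem absNorm_wK (hv : (Ideal.absNorm v.asIdeal).Coprime M) (hw : und K w = v) :
    Ideal.absNorm w.asIdeal = Ideal.absNorm v.asIdeal ^ foK v M := by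
  have hlies := lies hw
  have hmax := w.isMaximal
  have hmaxv := v.isMaximal
  have hfinw : Finite (𝓞 (EE K M) ⧸ w.asIdeal) := Ring.HasFiniteQuotients.finiteQuotient w.ne_bot
  have hfinv : Finite (𝓞 K ⧸ v.asIdeal) := Ring.HasFiniteQuotients.finiteQuotient v.ne_bot
  let _ := Ideal.Quotient.field w.asIdeal
  let _ := Ideal.Quotient.field v.asIdeal
  have h1 := Ideal.card_stabilizer_eq_card_inertia_mul_finrank (G := Gal(EE K M/K))
    v.asIdeal w.asIdeal
  rw [card_stab hv hw, inertia_one hv hw, one_mul] at h1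
  rw [h1]
  exact (Ideal.absNorm_pow_inertiaDeg v.asIdeal w.asIdeal).symm

end dec

end Run7.h365.KF
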