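import Pool.Agent.Run7.h365.KF.Fro
import Pool.Agent.Run7.h365.PF.Sgn
import Pool.Agent.N172.HS.Nrm

/-!
# The Jacobi sums are Hecke characters of the fields of roots of unity over a number field
-/

set_option autoImplicit false
set_option linter.unusedSectionVars false
set_option linter.style.haveILetI false

namespace Run7.h365.KF

open Finset NumberField IsDedekindDomain Run7.h365.FV
open Run7.h365.PF (sg sg_odd PP_theta')
open Pool.Agent.N172.HS (IsHecke nrmc)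

section gen

variable {F : Type} [Field F] [NumberField F] {N n : ℕ} [NeZero N] {ζ : 𝓞 F}

theorem norm_PvF (hζ : IsPrimitiveRoot ζ N) (f : F →+* ℂ) (v : HeightOneSpectrum (𝓞 F))
    (hv : (N : 𝓞 F) ∉ v.asIdeal) (b : Fin n → ZMod N) :
    ‖f (Pv N n v b : 𝓞 F)‖ ^ 2 = (Ideal.absNorm v.asIdeal : ℝ) ^ cnt b := by
  obtain ⟨κ, _, _, _, φ, hφ, hker, hcard⟩ := exists_model v
  obtain ⟨χ, hχ⟩ := exists_isRes hζ φ (ne_zero_of_ker hv hker)
  have h := isP_Pv (n := n) hζ v hv κ φ hφ hker χ hχ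
  have hinj : Function.Injective (f.comp (algebraMap (𝓞 F) F)) :=
    f.injective.comp RingOfIntegers.coe_injective
  have h1 : f (Pv N n v b : 𝓞 F) = PP (χ.ringHomComp (f.comp (algebraMap (𝓞 F) F))) b := by
    rw [PP_map, h]; rfl
  rw [h1, norm_PP (by rw [orderOf_comp hinj, hχ.1]), hcard]

theorem absNorm_ne (v : HeightOneSpectrum (𝓞 F)) : Ideal.absNorm v.asIdeal ≠ 0 := by
  have := Run7.h365.CM.norm_v_pos v
  omega

theorem Pv_neF (hζ : IsPrimitiveRoot ζ N) (v : HeightOneSpectrum (𝓞 F))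
    (hv : (N : 𝓞 F) ∉ v.asIdeal) (b : Fin n → ZMod N) : Pv N n v b ≠ 0 := by
  intro h
  obtain ⟨f⟩ : Nonempty (F →+* ℂ) := inferInstance
  have h1 := norm_PvF hζ f v hv b
  rw [h] at h1
  have h2 : ((0 : 𝓞 F) : F) = 0 := rfl
  rw [h2, map_zero, norm_zero, zero_pow two_ne_zero] at h1
  have h3 : (Ideal.absNorm v.asIdeal : ℝ) ≠ 0 := by exact_mod_cast absNorm_ne v
  exact pow_ne_zero _ h3 h1.symm

variable {E : Type} [Field E] [NumberField E] [Algebra F E]

theorem notMem_und {w : HeightOneSpectrum (𝓞 E)} (hw : (N : 𝓞 E) ∉ w.asIdeal) :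
    (N : 𝓞 F) ∉ (und F w).asIdeal := by
  intro h
  apply hw
  have h1 : algebraMap (𝓞 F) (𝓞 E) (N : 𝓞 F) ∈ w.asIdeal := h
  rwa [map_natCast] at h1

/-- the Jacobi sums at the primes of an extension -/
theorem Pv_ext (hζ : IsPrimitiveRoot ζ N) (hn : Odd n) {w : HeightOneSpectrum (𝓞 E)}
    (hw : (N : 𝓞 E) ∉ w.asIdeal) {s : ℕ}
    (hs : Ideal.absNorm w.asIdeal = Ideal.absNorm (und F w).asIdeal ^ s)
    (b : Fin n → ZMod N) {f : 𝓞 E →+* ℂ} (hf : Function.Injective f) :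
    f (Pv N n w b) = f (algebraMap (𝓞 F) (𝓞 E) (Pv N n (und F w) b)) ^ s := by
  obtain ⟨k, _, _, _, φ, hφ, hker, hcard⟩ := exists_model w
  have hi : Function.Injective (algebraMap (𝓞 F) (𝓞 E)) := FaithfulSMul.algebraMap_injective _ _
  have hζ' : IsPrimitiveRoot (algebraMap (𝓞 F) (𝓞 E) ζ) N := hζ.map_of_injective hi
  have hNk := ne_zero_of_ker hw hker
  obtain ⟨T, hT⟩ := exists_isRes hζ' φ hNk
  obtain ⟨T', hT'⟩ := exists_isRes hζ (φ.comp (algebraMap (𝓞 F) (𝓞 E))) hNk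
  have h1 : IsRes N φ (T'.ringHomComp (algebraMap (𝓞 F) (𝓞 E))) := by
    refine ⟨(orderOf_comp hi _).trans hT'.1, fun x hx => ?_⟩
    rw [MulChar.ringHomComp_apply]
    exact hT'.2 x hx
  have h2 := hT.unique hζ' hNk h1
  have h3 := PP_theta' (n := n) hζ (f := f.comp (algebraMap (𝓞 F) (𝓞 E))) (hf.comp hi)
    (θ := φ.comp (algebraMap (𝓞 F) (𝓞 E))) hNk (w := und F w)
    (by rw [← RingHom.comap_ker, hker]; rfl) (r := s) (by rw [hcard, hs]) hT' b
  rw [sg_odd hn, one_mul, one_mul] at h3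
  rw [isP_Pv (n := n) hζ' w hw k φ hφ hker T hT, ← PP_map, h2]
  exact h3

theorem exists_relNorm (w : HeightOneSpectrum (𝓞 E)) :
    ∃ s : ℕ, s ≠ 0 ∧ Ideal.relNorm (𝓞 F) w.asIdeal = (und F w).asIdeal ^ s ∧
      Ideal.absNorm w.asIdeal = Ideal.absNorm (und F w).asIdeal ^ s := by
  have h1 := w.isMaximal
  have h2 := (und F w).isPrime
  have h3 : w.asIdeal.LiesOver (und F w).asIdeal := ⟨rfl⟩
  obtain ⟨s, hs⟩ := Ideal.exists_relNorm_eq_pow_of_isPrime w.asIdeal (und F w).asIdeal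
  have h4 : Ideal.absNorm w.asIdeal = Ideal.absNorm (und F w).asIdeal ^ s := by
    rw [← Ideal.absNorm_relNorm (R := 𝓞 F), hs, map_pow]
  refine ⟨s, ?_, hs, h4⟩
  rintro rfl
  rw [pow_zero] at h4
  exact w.isPrime.ne_top (Ideal.absNorm_eq_one_iff.1 h4)

theorem PI_zero (b : Fin n → ZMod N) (v : HeightOneSpectrum (𝓞 F))
    (hv : (N : 𝓞 F) ∈ v.asIdeal) : PI N b v.asIdeal = 0 := by
  unfold PI
  rw [mulExt_prime, Pval_zero b v hv]

theorem psi_applyF (f : F →+* ℂ) (b : Fin n → ZMod N) (k : ℕ) (I : Ideal (𝓞 F)) :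
    psi N f b k I = f ((PI N b I : 𝓞 F) : F) * ((Ideal.absNorm I : ℂ) ^ k)⁻¹ := rfl

/-- the unitary characters -/
theorem psi_nrmc (hζ : IsPrimitiveRoot ζ N) (hn : Odd n) (f : E →+* ℂ) (b : Fin n → ZMod N)
    (k : ℕ) : psi N f b k = nrmc (E := E) (psi N (f.comp (algebraMap F E)) b k) := by
  refine MonoidWithZeroHom.ext fun I => ?_
  induction I using UniqueFactorizationMonoid.induction_on_prime with
  | h₁ => rw [map_zero, map_zero]
  | h₂ I hI =>
    rw [Ideal.isUnit_iff] at hI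
    rw [hI, ← Ideal.one_eq_top, map_one, map_one]
  | h₃ I P hI hP ih =>
    rw [map_mul, map_mul, ih]
    congr 1
    obtain ⟨w, rfl⟩ : ∃ w : HeightOneSpectrum (𝓞 E), w.asIdeal = P :=
      ⟨⟨P, Ideal.isPrime_of_prime hP, hP.ne_zero⟩, rfl⟩
    obtain ⟨s, hs0, hs, hs'⟩ := exists_relNorm (F := F) w
    have h1 : nrmc (E := E) (psi N (f.comp (algebraMap F E)) b k) w.asIdeal =
        psi N (f.comp (algebraMap F E)) b k (und F w).asIdeal ^ s := by
      change psi N (f.comp (algebraMap F E)) b k (Ideal.relNorm (𝓞 F) w.asIdeal) = _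
      rw [hs, map_pow]
    rw [h1, psi_applyF, psi_applyF]
    by_cases hw : (N : 𝓞 E) ∈ w.asIdeal
    · have h2 : (N : 𝓞 F) ∈ (und F w).asIdeal := by
        change algebraMap (𝓞 F) (𝓞 E) (N : 𝓞 F) ∈ w.asIdeal
        rwa [map_natCast]
      rw [PI_zero b w hw, PI_zero b _ h2]
      have h3 : ((0 : 𝓞 E) : E) = 0 := rfl
      have h4 : ((0 : 𝓞 F) : F) = 0 := rfl
      rw [h3, h4, map_zero, map_zero, zero_mul, zero_mul, zero_pow hs0]
    · have h2 := notMem_und (F := F) hw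
      rw [PI_prime b w hw, PI_prime b _ h2, mul_pow, inv_pow, hs']
      have h3 := Pv_ext (n := n) hζ hn hw hs' b (f := f.comp (algebraMap (𝓞 E) E))
        (f.injective.comp RingOfIntegers.coe_injective)
      have h4 : f ((Pv N n w b : 𝓞 E) : E) =
          (f.comp (algebraMap F E)) ((Pv N n (und F w) b : 𝓞 F) : F) ^ s := h3
      rw [h4]
      congr 2
      push_cast
      rw [← pow_mul, ← pow_mul, mul_comm]

end gen

section E

variable {K : Type} [Field K] [NumberField K] {M n : ℕ} [NeZero M]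

/-- an embedding -/
theorem exists_hom (K : Type) [Field K] [NumberField K] (M : ℕ) [NeZero M] :
    Nonempty (LL M →+* EE K M) := by
  have h1 := IsCyclotomicExtension.zeta_spec M ℚ (LL M)
  have h2 := IsCyclotomicExtension.zeta_spec M K (EE K M)
  refine ⟨((h1.powerBasis ℚ).lift (IsCyclotomicExtension.zeta M K (EE K M)) ?_ : LL M →ₐ[ℚ] EE K M)⟩
  rw [IsPrimitiveRoot.powerBasis_gen]
  rw [← Polynomial.cyclotomic_eq_minpoly_rat h1 (NeZero.pos M)]
  rw [Polynomial.aeval_def, Polynomial.eval₂_eq_eval_map, Polynomial.map_cyclotomic]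
  exact h2.isRoot_cyclotomic (NeZero.pos M)

/-- **The Jacobi sums are Hecke characters** -/
theorem isHecke_psiK (hn2 : 2 ≤ n) (hn : Odd n) (f : EE K M →+* ℂ) {b : Fin n → ZMod M} {k : ℕ}
    (hk : cnt b = 2 * k) : ∃ (𝔣 : Ideal (𝓞 (EE K M))) (k' : (EE K M →+* ℂ) → ℤ)
      (t : (EE K M →+* ℂ) → ℝ), IsHecke 𝔣 k' t (psi M f b k) := by
  obtain ⟨g⟩ := exists_hom K M
  letI : Algebra (LL M) (EE K M) := g.toAlgebra
  obtain ⟨ζ, hζ⟩ := exists_zeta M
  have h1 := isHecke_psi (n := n) hζ hn2 hn (f.comp (algebraMap (LL M) (EE K M))) hk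
  obtain ⟨𝔪, h𝔪⟩ := h1.nrmc (E := EE K M)
  rw [← psi_nrmc hζ hn f b k] at h𝔪
  exact ⟨_, _, _, h𝔪⟩

end E

end Run7.h365.KF
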