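import Pool.Agent.Run7.h365.KF.Tr
import Pool.Agent.Run7.h365.PF.Rk

/-!
# The rank over a number field
-/

set_option autoImplicit false
set_option linter.unusedSectionVars false

namespace Run7.h365.KF

open Finset NumberField IsDedekindDomain Filter Run7.h365.FV Run7.h365.PF
open Pool.Agent.Y772.NZ (one one_ne)
open Run7.h365.CM (IsTriv HasPole)

variable {K : Type} [Field K] [NumberField K] {r : ℕ} {nn mm : Fin r → ℕ} {L M : ℕ}

/-- orbits and elements -/
theorem card_orbK {n : ℕ} [NeZero M] (Q : PT n M → Prop)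
    (hQ : ∀ (c : (ZMod M)ˣ) b, Q (c • b) ↔ Q b) :
    Nat.card {b : PT n M // Q b} =
      Nat.card {ω : OrbK K n M // Q (repK ω)} * Nat.card Gal(EE K M/K) := by
  rw [← Nat.card_prod]
  symm
  refine Nat.card_congr (Equiv.ofBijective
    (fun x : {ω : OrbK K n M // Q (repK ω)} × Gal(EE K M/K) =>
      (⟨cuK x.2 • repK x.1.1, (hQ (cuK x.2) _).2 x.1.2⟩ : {b : PT n M // Q b})) ⟨?_, ?_⟩)
  · rintro ⟨⟨ω, hω⟩, σ⟩ ⟨⟨ω', hω'⟩, σ'⟩ h
    have h0 : cuK σ • repK ω = cuK σ' • repK ω' := congrArg Subtype.val h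
    have h1 := (orb_bij (K := K) (n := n) (M := M)).1
      (a₁ := (ω, σ)) (a₂ := (ω', σ')) h0
    obtain ⟨h2, h3⟩ := Prod.ext_iff.1 h1
    simp only at h2 h3
    subst h2 h3
    rfl
  · rintro ⟨b, hb⟩
    obtain ⟨⟨ω, σ⟩, hc⟩ := (orb_bij (K := K) (n := n) (M := M)).2 b
    simp only at hc
    have h2 : Q (repK ω) := by
      rw [← hc, hQ] at hb
      exact hb
    exact ⟨(⟨ω, h2⟩, σ), Subtype.ext hc⟩

section char

variable {A : Finset (Fin r)} (hA : A.Nonempty)

include hA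

theorem ratK_tof [NeZero M] {b : Fin (nA nn A) → ZMod M} :
    RatK K (univ.val.map (tof hA b)) ↔ PwK K b := by
  rw [← ratK_iff]
  have h1 := map_tof hA b fun z => z
  have h2 : (univ.val.map (tof hA b)) = univ.val.map (full b) := h1
  rw [h2]

theorem card_charsK [NeZero M] :
    Nat.card {a : Ent nn A → ZMod M // IsChar nn mm A a ∧ RatK K (univ.val.map a)} =
      Nat.card {b : PT (nA nn A) M // (fam nn mm hA).P b.1 ∧ PwK K b.1} := by
  symm
  refine Nat.card_congr (Equiv.ofBijective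
    (fun b : {b : PT (nA nn A) M // (fam nn mm hA).P b.1 ∧ PwK K b.1} =>
    (⟨tof hA b.1.1, (isChar_tof hA).2 ⟨b.1.2, b.2.1⟩, (ratK_tof hA).2 b.2.2⟩ :
      {a : Ent nn A → ZMod M // IsChar nn mm A a ∧ RatK K (univ.val.map a)})) ⟨?_, ?_⟩)
  · rintro ⟨⟨b, hb⟩, hb'⟩ ⟨⟨b', hb1⟩, hb2⟩ h
    have h1 : tof hA b = tof hA b' := congrArg Subtype.val h
    have h2 := tof_inj hA h1
    subst h2
    rfl
  · rintro ⟨a, ha1, ha2⟩
    obtain ⟨b, rfl⟩ := tof_surj hA ha1.sum_eq
    have h2 := (isChar_tof hA).1 ha1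
    exact ⟨⟨⟨b, h2.1⟩, h2.2, (ratK_tof hA).1 ha2⟩, rfl⟩

theorem card_orbitsK [NeZero M] :
    Nat.card {ω : OrbK K (nA nn A) M // (fam nn mm hA).P (repK ω).1 ∧ PwK K (repK ω).1} =
      Nat.card {a : Ent nn A → ZMod M // IsChar nn mm A a ∧ RatK K (univ.val.map a)} /
        Module.finrank K (CyclotomicField M K) := by
  have h0 : Module.finrank K (CyclotomicField M K) = Nat.card Gal(EE K M/K) :=
    (IsGalois.card_aut_eq_finrank K (EE K M)).symm
  rw [card_charsK hA, card_orbK (K := K) (fun b : PT (nA nn A) M =>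
    (fam nn mm hA).P b.1 ∧ PwK K b.1) (fun c b => and_congr (Fam.smul c b) (PwK_smul_iff c b)), h0,
    Nat.mul_div_cancel _ Nat.card_pos]

end char

/-! ### the empty set -/

theorem finrank_one (K : Type) [Field K] [NumberField K] :
    Module.finrank K (CyclotomicField 1 K) = 1 := by
  have h0 : Module.finrank K (CyclotomicField 1 K) = Nat.card Gal(EE K 1/K) :=
    (IsGalois.card_aut_eq_finrank K (EE K 1)).symm
  rw [h0, Nat.card_eq_fintype_card]
  refine le_antisymm ?_ Fintype.card_pos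
  have h3 := Fintype.card_le_of_injective _ (cuK_inj (K := K) (M := 1))
  have h4 : Fintype.card (ZMod 1)ˣ = 1 := by rw [ZMod.card_units_eq_totient, Nat.totient_one]
  rwa [h4] at h3

theorem card_emptyK (hL : 0 < L) {A : Finset (Fin r)} (hA : ¬ A.Nonempty) :
    ∑ M ∈ L.divisors, Nat.card {a : Ent nn A → ZMod M //
      IsChar nn mm A a ∧ RatK K (univ.val.map a)} / Module.finrank K (CyclotomicField M K) =
      1 := by
  rw [not_nonempty_iff_eq_empty] at hA
  subst hA
  have hE : IsEmpty (Ent nn (∅ : Finset (Fin r))) := ⟨fun x => absurd x.1.2 (notMem_empty _)⟩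
  have hu : ∀ (M : ℕ) (a : Ent nn (∅ : Finset (Fin r)) → ZMod M), a = 0 := fun M a =>
    funext fun x => (hE.false x).elim
  rw [sum_eq_single 1]
  · have h1 : IsChar nn mm (∅ : Finset (Fin r)) (0 : Ent nn (∅ : Finset (Fin r)) → ZMod 1) :=
      ⟨fun x => (hE.false x).elim, fun i => absurd i.2 (notMem_empty _),
        fun i => absurd i.2 (notMem_empty _), addOrderOf_zero⟩
    have h2 : RatK K (univ.val.map (0 : Ent nn (∅ : Finset (Fin r)) → ZMod 1)) := by
      refine Eventually.of_forall fun v F _ _ φ _ χ ψ _ _ => ?_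
      have h3 : (univ.val.map (0 : Ent nn (∅ : Finset (Fin r)) → ZMod 1)) = 0 := by
        rw [univ_eq_empty]
        rfl
      rw [h3]
      simp
    have h4 : Nat.card {a : Ent nn (∅ : Finset (Fin r)) → ZMod 1 //
        IsChar nn mm (∅ : Finset (Fin r)) a ∧ RatK K (univ.val.map a)} = 1 := by
      rw [Nat.card_eq_one_iff_unique]
      refine ⟨⟨fun x y => Subtype.ext (by rw [hu 1 x.1, hu 1 y.1])⟩, ⟨⟨0, h1, h2⟩⟩⟩
    rw [h4, finrank_one, Nat.div_one]
  · intro M _ hM
    have h5 : IsEmpty {a : Ent nn (∅ : Finset (Fin r)) → ZMod M //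
        IsChar nn mm (∅ : Finset (Fin r)) a ∧ RatK K (univ.val.map a)} := by
      refine ⟨fun x => hM ?_⟩
      have h6 := x.2.1.level
      rw [hu M x.1, addOrderOf_zero] at h6
      exact h6.symm
    rw [Nat.card_of_isEmpty, Nat.zero_div]
  · intro h
    exact absurd (Nat.one_mem_divisors.2 hL.ne') h

/-! ### the number of the trivial characters -/

theorem triv_oneK (E : Type) [Field E] [NumberField E] : IsTriv (one E) := by
  intro 𝔞 h𝔞
  by_cases h0 : 𝔞 = 0
  · exact absurd (by rw [h0, map_zero]) h𝔞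
  · exact one_ne E h0

theorem card_JIK (h2 : ∀ i, 2 ≤ nn i) (hL : 0 < L) (j : ℕ) :
    Nat.card {x : JIK K nn mm L (2 * j) // IsTriv (psiIK x)} =
      ∑ c ∈ univ.filter (fun c : Sy nn => dg c = 2 * j), ∑ M ∈ L.divisors,
        Nat.card {a : Ent nn (pr c) → ZMod M // IsChar nn mm (pr c) a ∧ RatK K (univ.val.map a)} /
          Module.finrank K (CyclotomicField M K) := by
  classical
  -- the two parts
  have e1 : Nat.card {x : JIK K nn mm L (2 * j) // IsTriv (psiIK x)} =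
      Nat.card {x : Σ c : S1 nn (2 * j), Σ M : D L, O1K K nn mm c M.1 //
        IsTriv (psiIK (Sum.inl x : JIK K nn mm L (2 * j)))} +
      Nat.card {x : S0 nn (2 * j) // IsTriv (psiIK (Sum.inr x : JIK K nn mm L (2 * j)))} := by
    rw [← Nat.card_sum]
    exact Nat.card_congr Equiv.subtypeSum
  have e2 : Nat.card {x : S0 nn (2 * j) // IsTriv (psiIK (Sum.inr x : JIK K nn mm L (2 * j)))} =
      ∑ _c : S0 nn (2 * j), 1 := by
    rw [sum_const, smul_eq_mul, mul_one, card_univ, ← Nat.card_eq_fintype_card]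
    refine Nat.card_congr (Equiv.subtypeUnivEquiv fun x => ?_)
    exact triv_oneK (EE K 1)
  have h1 : ∀ x : Σ c : S1 nn (2 * j), Σ M : D L, O1K K nn mm c M.1,
      IsTriv (psiIK (Sum.inl x : JIK K nn mm L (2 * j))) ↔ PwK K (repK x.2.2.1).1 := by
    intro x
    obtain ⟨hn, hn2, -, -⟩ := nA_facts h2 x.1.2.1 x.1.2.2
    change IsTriv (psi x.2.1.1 (ffK K x.2.1.1) (repK x.2.2.1).1 ((nA nn (pr x.1.1) + 1) / 2)) ↔ _
    exact triv_iffK hn hn2 (repK x.2.2.1).2.1
  have e3 : Nat.card {x : Σ c : S1 nn (2 * j), Σ M : D L, O1K K nn mm c M.1 //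
        IsTriv (psiIK (Sum.inl x : JIK K nn mm L (2 * j)))} =
      Nat.card (Σ c : S1 nn (2 * j), Σ M : D L,
        {ω : OrbK K (nA nn (pr c.1)) M.1 // (fam nn mm c.2.2).P (repK ω).1 ∧ PwK K (repK ω).1}) := by
    refine Nat.card_congr
      { toFun := fun x => ⟨x.1.1, x.1.2.1, x.1.2.2.1, x.1.2.2.2, (h1 x.1).1 x.2⟩
        invFun := fun x => ⟨⟨x.1, x.2.1, x.2.2.1, x.2.2.2.1⟩, (h1 _).2 x.2.2.2.2⟩
        left_inv := fun _ => rfl
        right_inv := fun _ => rfl }
  rw [e1, e2, e3, Nat.card_sigma, sum_symbols]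
  congr 1
  · refine sum_congr rfl fun c _ => ?_
    rw [Nat.card_sigma, sum_congr rfl fun M _ => card_orbitsK (K := K) (M := M.1) c.2.2]
    exact sum_coe_sort L.divisors (fun M => Nat.card {a : Ent nn (pr c.1) → ZMod M //
      IsChar nn mm (pr c.1) a ∧ RatK K (univ.val.map a)} / Module.finrank K (CyclotomicField M K))
  · refine sum_congr rfl fun c _ => ?_
    exact (card_emptyK hL c.2.2).symm

end Run7.h365.KF
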