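import Pool.Agent.Run7.h365.PF.Stm
import Pool.Agent.Run7.h365.KF.Bt

/-!
# Products of Fermat varieties over a number field: definitions

`V i`, `i < r`, is the Fermat variety `x_0 ^ m + ... + x_n ^ m = 0`, `n = nn i`, `m = mm i`, over the
number field `K`. For the symbols `c : Sy nn` of the formula of Künneth and the characters
`a : Ent nn A → ZMod M` (`IsChar`) of the tensor products of the primitive parts see
`Run7.h365.PF.Stm`. The Galois group of the field of `M`-th roots of unity over `K` permutes the
lines of the characters of the level `M` without fixed points, so that the orbits have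
`[K(ζ_M) : K]` elements.
-/

set_option autoImplicit false

namespace Run7.h365.KF

open NumberField IsDedekindDomain Filter Run7.h365.PF

variable {r : ℕ}

/-- The Galois group of the field `K(ζ_M)` acts trivially on the line of the character with the
entries `s`, twisted by half of its degree: at all but finitely many primes `v` of `K` and for all
finite extensions `F` of the residue field of `v` which contain the `M`-th roots of unity (there is a
character `χ` of the order `M`) the Frobenius eigenvalue, the product of the Gauss sums `g(χ ^ a)`,
`a ∈ s`, divided by `q` once for every factor, is the power of `q = |F|` of this weight. -/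
def RatK (K : Type) [Field K] [NumberField K] {M : ℕ} (s : Multiset (ZMod M)) : Prop :=
  ∀ᶠ v : HeightOneSpectrum (𝓞 K) in cofinite, ∀ (F : Type) [Field F] [Fintype F] (φ : 𝓞 K →+* F),
    RingHom.ker φ = v.asIdeal → ∀ (χ : MulChar F ℂ) (ψ : AddChar F ℂ), orderOf χ = M → ψ ≠ 1 →
    (s.map fun z => gaussSum (χ ^ z.val) ψ).prod = (Fintype.card F : ℂ) ^ (Multiset.card s / 2)

/-- The dimension of the space of the classes of degree `2 j` in the cohomology of the product over the
number field `K`, twisted by `j`, on which the Galois group of `K` acts trivially: the sum, over all
symbols `c` of degree `2 j` and all levels `M`, of the number of the orbits of the rational characters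
under the Galois group of `K(ζ_M)` over `K` (every orbit has `[K(ζ_M) : K]` elements). -/
noncomputable def rankK (K : Type) [Field K] [NumberField K] (nn mm : Fin r → ℕ) (j : ℕ) : ℕ :=
  ∑ c ∈ Finset.univ.filter (fun c : Sy nn => dg c = 2 * j), ∑ M ∈ (Finset.univ.lcm mm).divisors,
    Nat.card {a : Ent nn (pr c) → ZMod M // IsChar nn mm (pr c) a ∧ RatK K (Finset.univ.val.map a)} /
      Module.finrank K (CyclotomicField M K)

end Run7.h365.KF
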