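import Pool.Agent.Run7.h365.KF.Hk

/-!
# The sums of the Jacobi sums of the conjugates, and the levels
-/

set_option autoImplicit false
set_option linter.unusedSectionVars false
set_option linter.style.haveILetI false

namespace Run7.h365.KF

open Finset NumberField IsDedekindDomain Run7.h365.FV
open Run7.h365.PF (sg sg_odd sg_sq PP_theta' Fam sum_levels_fam sum_level_fam)
open scoped Pointwise

variable {K : Type} [Field K] [NumberField K] {M n : ℕ} [NeZero M]

/-! ### the orbits -/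

section orb

/-- the orbits of the Galois group of the field of `M`-th roots of unity over `K` -/
def OrbK (K : Type) [Field K] [NumberField K] (n M : ℕ) [NeZero M] : Type :=
  Quotient (MulAction.orbitRel (cuK (K := K) (M := M)).range (PT n M))

noncomputable instance : Fintype (OrbK K n M) :=
  haveI : Finite (OrbK K n M) := inferInstanceAs (Finite (Quotient _))
  Fintype.ofFinite _

/-- the representative of an orbit -/
noncomputable def repK (ω : OrbK K n M) : PT n M := Quotient.out ω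

theorem mk_repK (ω : OrbK K n M) (σ : Gal(EE K M/K)) :
    (Quotient.mk _ (cuK σ • repK ω) : OrbK K n M) = ω := by
  conv_rhs => rw [← Quotient.out_eq ω]
  apply Quotient.sound
  exact ⟨⟨cuK σ, σ, rfl⟩, rfl⟩

theorem orb_bij : Function.Bijective
    (fun x : OrbK K n M × Gal(EE K M/K) => cuK x.2 • repK x.1) := by
  refine ⟨?_, ?_⟩
  · rintro ⟨ω, σ⟩ ⟨ω', σ'⟩ h
    simp only at h
    have h1 : ω = ω' := by rw [← mk_repK ω σ, h, mk_repK]
    subst h1
    have h2 : ((cuK σ')⁻¹ * cuK σ) • repK ω = repK ω := by rw [mul_smul, h, inv_smul_smul]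
    have h3 := free _ _ h2
    rw [inv_mul_eq_one] at h3
    rw [cuK_inj h3]
  · intro b
    have h1 : (MulAction.orbitRel (cuK (K := K) (M := M)).range (PT n M)) b
        (repK (Quotient.mk _ b : OrbK K n M)) := by
      apply Quotient.exact
      exact (Quotient.out_eq _).symm
    obtain ⟨⟨c, σ, rfl⟩, hc⟩ := h1
    exact ⟨(Quotient.mk _ b, σ), hc⟩

theorem sum_orbitsK (K : Type) [Field K] [NumberField K] (g : PT n M → ℂ) :
    ∑ b, g b = ∑ ω : OrbK K n M, ∑ σ : Gal(EE K M/K), g (cuK σ • repK ω) := by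
  rw [← Fintype.sum_prod_type' (f := fun (ω : OrbK K n M) (σ : Gal(EE K M/K)) =>
    g (cuK σ • repK ω))]
  symm
  exact Fintype.sum_bijective _ orb_bij _ _ fun x => rfl

end orb

/-! ### the primes above a prime -/

section fib

variable {κ : Type} [Field κ] [Fintype κ] [DecidableEq κ] {p : ℕ} [Fact p.Prime] [CharP κ p]
  {v : HeightOneSpectrum (𝓞 K)}

theorem exists_aboveK (v : HeightOneSpectrum (𝓞 K)) (M : ℕ) [NeZero M] :
    ∃ w : HeightOneSpectrum (𝓞 (EE K M)), und K w = v := by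
  obtain ⟨P, hP1, hP2⟩ := Ideal.exists_ideal_over_prime_of_isIntegral_of_isDomain
    (S := 𝓞 (EE K M)) v.asIdeal (by
      rw [(RingHom.injective_iff_ker_eq_bot _).1
        (FaithfulSMul.algebraMap_injective (𝓞 K) (𝓞 (EE K M)))]
      exact bot_le)
  have h0 : P ≠ ⊥ := by
    rintro rfl
    apply v.ne_bot
    rw [← hP2]
    rw [← RingHom.ker_eq_comap_bot]
    exact (RingHom.injective_iff_ker_eq_bot _).1
      (FaithfulSMul.algebraMap_injective (𝓞 K) (𝓞 (EE K M)))
  exact ⟨⟨P, hP1, h0⟩, HeightOneSpectrum.ext hP2⟩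

theorem kp_actK (θ : 𝓞 (EE K M) →+* κ) (σ : Gal(EE K M/K)) :
    (kp p (θ.comp (actK σ))).asIdeal = σ⁻¹ • (kp p θ).asIdeal := by
  ext x
  rw [Ideal.mem_inv_pointwise_smul_iff]
  rfl

theorem actK_alg (σ : Gal(EE K M/K)) (x : 𝓞 K) :
    actK σ (algebraMap (𝓞 K) (𝓞 (EE K M)) x) = algebraMap (𝓞 K) (𝓞 (EE K M)) x := by
  apply RingOfIntegers.ext
  rw [actK_coe]
  exact σ.commutes (x : K)

theorem und_kp (θ : 𝓞 (EE K M) →+* κ) (σ : Gal(EE K M/K)) :
    und K (kp p (θ.comp (actK σ))) = und K (kp p θ) := by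
  apply HeightOneSpectrum.ext
  ext x
  change θ (actK σ (algebraMap (𝓞 K) (𝓞 (EE K M)) x)) = 0 ↔
    θ (algebraMap (𝓞 K) (𝓞 (EE K M)) x) = 0
  rw [actK_alg]

theorem card_fibK [DecidableEq (HeightOneSpectrum (𝓞 (EE K M)))] (θ : 𝓞 (EE K M) →+* κ)
    (hv : (Ideal.absNorm v.asIdeal).Coprime M) (hθ : und K (kp p θ) = v)
    {w : HeightOneSpectrum (𝓞 (EE K M))} (hw : und K w = v) :
    (univ.filter fun σ : Gal(EE K M/K) => kp p (θ.comp (actK σ)) = w).card = foK v M := by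
  classical
  have h1 := lies hw
  have h2 := w.isPrime
  have h3 := (kp p θ).isPrime
  have h4 := lies hθ
  have h5 := (kp p θ).isMaximal
  obtain ⟨τ, hτ⟩ := Ideal.exists_smul_eq_of_isGaloisGroup v.asIdeal
    (kp p θ).asIdeal w.asIdeal Gal(EE K M/K)
  have h6 : (univ.filter fun σ : Gal(EE K M/K) => kp p (θ.comp (actK σ)) = w).card =
      Nat.card (MulAction.stabilizer Gal(EE K M/K) (kp p θ).asIdeal) := by
    rw [← Fintype.card_subtype, ← Nat.card_eq_fintype_card]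
    refine Nat.card_congr
      { toFun := fun σ => ⟨τ⁻¹ * σ.1⁻¹, ?_⟩
        invFun := fun g => ⟨(τ * g.1)⁻¹, ?_⟩
        left_inv := fun σ => ?_
        right_inv := fun g => ?_ }
    · rw [MulAction.mem_stabilizer_iff, mul_smul, ← kp_actK, σ.2, ← hτ, inv_smul_smul]
    · apply HeightOneSpectrum.ext
      rw [kp_actK, inv_inv, mul_smul, MulAction.mem_stabilizer_iff.1 g.2, hτ]
    · apply Subtype.ext
      simp
    · apply Subtype.ext
      simp
  rw [h6]
  exact card_stab hv hθ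

/-- **The sum of the Jacobi sums of the conjugates.** -/
theorem sum_unitsK (f : EE K M →+* ℂ) (hv : (Ideal.absNorm v.asIdeal).Coprime M)
    (hpv : (p : 𝓞 K) ∈ v.asIdeal) {r : ℕ}
    (hr : Fintype.card κ = (Ideal.absNorm v.asIdeal ^ foK v M) ^ r) :
    ∃ T : MulChar κ ℂ, orderOf T = M ∧ ∀ b : Fin n → ZMod M,
    ∑ σ : Gal(EE K M/K), sg n * PP T (fun i => (cuK σ : ZMod M) * b i) =
      ∑ w : {w : HeightOneSpectrum (𝓞 (EE K M)) // und K w = v},
        (foK v M : ℂ) * (sg n * f (Pv M n w.1 b : 𝓞 (EE K M))) ^ r := by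
  classical
  obtain ⟨ζ, hζ⟩ := exists_zetaK K M
  obtain ⟨w₀, hw₀⟩ := exists_aboveK v M
  have hpw : (p : 𝓞 (EE K M)) ∈ w₀.asIdeal := by
    have h1 : (p : 𝓞 K) ∈ (und K w₀).asIdeal := by rw [hw₀]; exact hpv
    have h2 : algebraMap (𝓞 K) (𝓞 (EE K M)) (p : 𝓞 K) ∈ w₀.asIdeal := h1
    rwa [map_natCast] at h2
  obtain ⟨θ, hθ⟩ := exists_theta (κ := κ) hpw (r := r) (by rw [absNorm_wK hv hw₀, hr])
  have hkp : kp p θ = w₀ := HeightOneSpectrum.ext hθ
  have hMκ : (M : κ) ≠ 0 := by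
    intro h
    apply notMem_w hv hw₀
    rw [← hθ, RingHom.mem_ker, map_natCast, h]
  obtain ⟨T₀, hT₀⟩ := exists_isRes hζ θ hMκ
  set f₁ : 𝓞 (EE K M) →+* ℂ := f.comp (algebraMap (𝓞 (EE K M)) (EE K M)) with hf₁
  have hf₁i : Function.Injective f₁ := f.injective.comp RingOfIntegers.coe_injective
  have hT₁ : orderOf (T₀.ringHomComp f₁) = M := (orderOf_comp hf₁i _).trans hT₀.1
  refine ⟨T₀.ringHomComp f₁, hT₁, fun b => ?_⟩
  -- the values
  have h1 : ∀ σ : Gal(EE K M/K), sg n * PP (T₀.ringHomComp f₁)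
      (fun i => (cuK σ⁻¹ : ZMod M) * b i) =
      (sg n * f₁ (Pv M n (kp p (θ.comp (actK σ))) b)) ^ r := by
    intro σ
    have h2 : IsRes M (θ.comp (actK σ)) (T₀.ringHomComp (actK σ⁻¹)) := by
      refine ⟨(orderOf_comp (actK_inj _) _).trans hT₀.1, fun x hx => ?_⟩
      rw [MulChar.ringHomComp_apply, RingHom.comp_apply, ← hT₀.2 _ hx]
      congr 1
      rw [actK_apply, actK_apply, smul_inv_smul]
    have h3 := PP_theta' (n := n) hζ hf₁i hMκ (w := kp p (θ.comp (actK σ))) rfl (r := r)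
      (by rw [absNorm_wK hv (by rw [und_kp, hkp, hw₀]), hr]) h2 b
    rw [← h3, actK_chi hT₀.1, ← MulChar.ringHomComp_pow, PP_pow hT₁ (cuK σ⁻¹).isUnit]
  rw [← Equiv.sum_comp (Equiv.inv Gal(EE K M/K))]
  simp only [Equiv.inv_apply]
  rw [sum_congr rfl fun σ _ => h1 σ]
  have h2 : ∀ g : HeightOneSpectrum (𝓞 (EE K M)) → ℂ,
      ∑ w : {w : HeightOneSpectrum (𝓞 (EE K M)) // und K w = v}, g w.1 =
      ∑ w ∈ (univ : Finset {w : HeightOneSpectrum (𝓞 (EE K M)) // und K w = v}).map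
        (Function.Embedding.subtype _), g w := fun g => by rw [sum_map]; rfl
  have h3 : ∀ w : HeightOneSpectrum (𝓞 (EE K M)),
      w ∈ (univ : Finset {w : HeightOneSpectrum (𝓞 (EE K M)) // und K w = v}).map
        (Function.Embedding.subtype _) ↔ und K w = v := by
    intro w
    rw [mem_map]
    constructor
    · rintro ⟨⟨w', hw'⟩, _, rfl⟩
      exact hw'
    · intro h
      exact ⟨⟨w, h⟩, mem_univ _, rfl⟩
  rw [h2 (fun w => (foK v M : ℂ) * (sg n * f (Pv M n w b : 𝓞 (EE K M))) ^ r),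
    ← sum_fiberwise_of_maps_to (s := univ)
      (t := (univ : Finset {w : HeightOneSpectrum (𝓞 (EE K M)) // und K w = v}).map
        (Function.Embedding.subtype _))
      (g := fun σ : Gal(EE K M/K) => kp p (θ.comp (actK σ)))
      (fun σ _ => (h3 _).2 (by rw [und_kp, hkp, hw₀]))]
  refine sum_congr rfl fun w hw => ?_
  rw [sum_congr rfl (g := fun _ => (sg n * f₁ (Pv M n w b)) ^ r)
    (fun σ hσ => by rw [(mem_filter.1 hσ).2]),
    sum_const, card_fibK θ hv (by rw [hkp, hw₀]) ((h3 w).1 hw), nsmul_eq_mul]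
  rfl

end fib

/-! ### the levels -/

/-- an embedding -/
noncomputable def ffK (K : Type) [Field K] [NumberField K] (M : ℕ) [NeZero M] : EE K M →+* ℂ :=
  Classical.choice inferInstance

/-- the normalised Jacobi sum, with sign -/
noncomputable def JnK (k : ℕ) (b : Fin n → ZMod M) (w : HeightOneSpectrum (𝓞 (EE K M))) : ℂ :=
  sg n * ffK K M (Pv M n w b : 𝓞 (EE K M)) / (Ideal.absNorm w.asIdeal : ℂ) ^ k

section loc

variable {v : HeightOneSpectrum (𝓞 K)} {κ : Type} [Field κ] [Fintype κ] [DecidableEq κ] {e : ℕ}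
  {p : ℕ} [Fact p.Prime] [CharP κ p]

open Classical in
/-- the sum over the places above `v` -/
noncomputable def trK (Fa : Fam n) (k : ℕ) (v : HeightOneSpectrum (𝓞 K)) (e M : ℕ) [NeZero M] : ℂ :=
  ∑ ω : OrbK K n M, if Fa.P (repK ω).1 then
    ∑ w : {w : HeightOneSpectrum (𝓞 (EE K M)) // und K w = v},
      (if foK v M ∣ e then (foK v M : ℂ) * JnK k (repK ω).1 w.1 ^ (e / foK v M) else 0) else 0

theorem dvd_iff_foK (he : Fintype.card κ = Ideal.absNorm v.asIdeal ^ e) :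
    M ∣ Fintype.card κ - 1 ↔ foK v M ∣ e := by
  unfold foK
  have h1 : 1 ≤ Ideal.absNorm v.asIdeal ^ e :=
    Nat.one_le_pow _ _ (Nat.pos_of_ne_zero (absNorm_ne v))
  have h2 : ((Ideal.absNorm v.asIdeal : ℕ) : ZMod M) ^ e = 1 ↔
      Ideal.absNorm v.asIdeal ^ e ≡ 1 [MOD M] := by
    rw [← Nat.cast_pow, ← ZMod.natCast_eq_natCast_iff, Nat.cast_one]
  rw [orderOf_dvd_iff_pow_eq_one, he, h2, ← Nat.modEq_iff_dvd' h1]
  exact ⟨fun h => h.symm, fun h => h.symm⟩

open Classical in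
theorem level_evalK (Fa : Fam n) (k : ℕ) (hv : (Ideal.absNorm v.asIdeal).Coprime M)
    (hpv : (p : 𝓞 K) ∈ v.asIdeal) (he : Fintype.card κ = Ideal.absNorm v.asIdeal ^ e)
    {T : MulChar κ ℂ} (hT : orderOf T = M) (hM : M ∣ Fintype.card κ - 1) :
    (∑ b : PT n M, if Fa.P b.1 then sg n * PP T b.1 else 0) =
      (Fintype.card κ : ℂ) ^ k * trK Fa k v e M := by
  have hfe := (dvd_iff_foK he).1 hM
  obtain ⟨r, hr⟩ := hfe
  have hf0 := foK_ne hv
  have hdiv : e / foK v M = r := by rw [hr, Nat.mul_div_cancel_left _ (Nat.pos_of_ne_zero hf0)]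
  obtain ⟨T₀, hT₀, hsum⟩ := sum_unitsK (n := n) (κ := κ) (p := p) (ffK K M) hv hpv (r := r)
    (by rw [he, ← pow_mul]; congr 1)
  obtain ⟨c, hc⟩ := exists_unit_pow hT₀ hT
  -- another character
  have h0 : (∑ b : PT n M, if Fa.P b.1 then sg n * PP T b.1 else 0) =
      ∑ b : PT n M, if Fa.P b.1 then sg n * PP T₀ b.1 else 0 := by
    rw [← Equiv.sum_comp (MulAction.toPerm c)
      (fun b : PT n M => if Fa.P b.1 then sg n * PP T₀ b.1 else 0)]
    refine sum_congr rfl fun b _ => ?_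
    rw [MulAction.toPerm_apply]
    have h1 : PP T b.1 = PP T₀ (c • b).1 := by
      rw [hc, PP_pow hT₀ c.isUnit]
      rfl
    rw [h1]
    by_cases hP : Fa.P b.1
    · rw [if_pos hP, if_pos ((Fam.smul c b).2 hP)]
    · rw [if_neg hP, if_neg fun h => hP ((Fam.smul c b).1 h)]
  rw [h0]
  unfold trK
  rw [sum_orbitsK K (fun b : PT n M => if Fa.P b.1 then sg n * PP T₀ b.1 else 0), mul_sum]
  refine sum_congr rfl fun ω _ => ?_
  by_cases hω : Fa.P (repK ω).1
  · rw [if_pos hω, sum_congr rfl fun σ _ => if_pos ((Fam.smul (cuK σ) (repK ω)).2 hω)]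
    have h1 := hsum (repK ω).1
    have h2 : ∑ σ : Gal(EE K M/K), sg n * PP T₀ (cuK σ • repK ω).1 =
        ∑ σ : Gal(EE K M/K), sg n * PP T₀ (fun i => (cuK σ : ZMod M) * (repK ω).1 i) := rfl
    rw [h2, h1, mul_sum]
    refine sum_congr rfl fun w _ => ?_
    rw [if_pos ⟨r, hr⟩, hdiv]
    unfold JnK
    rw [absNorm_wK hv w.2, he, hr, div_pow]
    have h3 : (((Ideal.absNorm v.asIdeal ^ foK v M : ℕ) : ℂ) ^ k) ^ r ≠ 0 := by
      apply pow_ne_zero
      apply pow_ne_zero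
      exact_mod_cast pow_ne_zero _ (absNorm_ne v)
    have h4 : (((Ideal.absNorm v.asIdeal ^ (foK v M * r) : ℕ) : ℂ)) ^ k =
        (((Ideal.absNorm v.asIdeal ^ foK v M : ℕ) : ℂ) ^ k) ^ r := by
      push_cast
      rw [← pow_mul, ← pow_mul, ← pow_mul]
      congr 1
      ring
    rw [h4]
    field_simp
  · rw [if_neg hω, sum_congr rfl fun σ _ => if_neg fun h => hω ((Fam.smul (cuK σ) (repK ω)).1 h)]
    simp

variable {d L : ℕ}

open Classical in
/-- **The sum over all levels.** -/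
theorem sum_allK (Fa : Fam n) (k : ℕ) (hL : 0 < L) (hv : (Ideal.absNorm v.asIdeal).Coprime L)
    (hpv : (p : 𝓞 K) ∈ v.asIdeal) (he : Fintype.card κ = Ideal.absNorm v.asIdeal ^ e)
    (hd : d = (Fintype.card κ - 1).gcd L) [NeZero d] {T : MulChar κ ℂ} (hT : orderOf T = d) :
    (∑ b : Fin n → ZMod d, if Good b ∧ Fa.P b then sg n * PP T b else 0) =
      (Fintype.card κ : ℂ) ^ k * ∑ M : D L, trK Fa k v e M.1 := by
  have hdq : d ∣ Fintype.card κ - 1 := by rw [hd]; exact Nat.gcd_dvd_left _ _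
  have hdL : d ∣ L := by rw [hd]; exact Nat.gcd_dvd_right _ _
  have hcop : ∀ M, M ∣ L → (Ideal.absNorm v.asIdeal).Coprime M := fun M hM =>
    Nat.Coprime.coprime_dvd_right hM hv
  let H : ℕ → ℂ := fun M => if h : M = 0 then 0 else
    haveI : NeZero M := ⟨h⟩
    trK Fa k v e M
  have hH : ∀ (M : ℕ) [NeZero M], H M = trK Fa k v e M := by
    intro M hM
    exact dif_neg hM.out
  rw [sum_levels_fam Fa]
  have h3 : ∀ M : D d, (∑ b : Fin n → ZMod d,
      if (Good b ∧ addOrderOf b = M.1) ∧ Fa.P b then sg n * PP T b else 0) =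
      (Fintype.card κ : ℂ) ^ k * H M.1 := by
    intro M
    obtain ⟨j, hj⟩ := Nat.dvd_of_mem_divisors M.2
    have hj0 : j ≠ 0 := by
      rintro rfl
      rw [mul_zero] at hj
      exact NeZero.ne d hj
    have hM1 : M.1 ∣ Fintype.card κ - 1 := dvd_trans ⟨j, hj⟩ hdq
    have hTk : orderOf (T ^ j) = M.1 := by
      have h5 : d.gcd j = j := Nat.gcd_eq_right ⟨M.1, by rw [Nat.mul_comm]; exact hj⟩
      rw [orderOf_pow, hT, h5]
      exact Nat.div_eq_of_eq_mul_left (Nat.pos_of_ne_zero hj0) hj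
    have h4 := level_evalK (n := n) (p := p) Fa k (hcop M.1 (dvd_trans ⟨j, hj⟩ hdL)) hpv he hTk hM1
    rw [hH M.1, ← h4]
    have h5 := sum_level_fam Fa hj hj0 hT
    have h6 : ∀ b : Fin n → ZMod d,
        (if (Good b ∧ addOrderOf b = M.1) ∧ Fa.P b then sg n * PP T b else 0) =
        sg n * if (Good b ∧ addOrderOf b = M.1) ∧ Fa.P b then PP T b else 0 := by
      intro b
      rw [mul_ite, mul_zero]
    have h7 : ∀ b : PT n M.1, (if Fa.P b.1 then sg n * PP (T ^ j) b.1 else 0) =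
        sg n * if Fa.P b.1 then PP (T ^ j) b.1 else 0 := by
      intro b
      rw [mul_ite, mul_zero]
    rw [sum_congr rfl fun b _ => h6 b, ← mul_sum, h5, sum_congr rfl fun b _ => h7 b, ← mul_sum]
  have h3' : ∑ M : D L, trK Fa k v e M.1 = ∑ M ∈ L.divisors, H M := by
    rw [← sum_D (fun M => H M)]
    exact sum_congr rfl fun M _ => (hH M.1).symm
  rw [sum_congr rfl fun M _ => h3 M, sum_D (fun M => (Fintype.card κ : ℂ) ^ k * H M), h3', mul_sum]
  refine sum_subset (Nat.divisors_subset_of_dvd hL.ne' hdL) fun M hM hM' => ?_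
  have hMm := Nat.dvd_of_mem_divisors hM
  have : NeZero M := ⟨(Nat.pos_of_mem_divisors hM).ne'⟩
  rw [hH M]
  have h5 : ¬ foK v M ∣ e := by
    rw [← dvd_iff_foK he]
    intro h6
    apply hM'
    rw [Nat.mem_divisors]
    exact ⟨by rw [hd]; exact Nat.dvd_gcd h6 hMm, NeZero.ne d⟩
  unfold trK
  simp [h5]

end loc

end Run7.h365.KF
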